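import Pool.Agent.Lib.MP_b7b3c1_ag.Omega

set_option autoImplicit false

/-!
# The canonical divisor of `XX` is minus three times the hyperplane section
-/

namespace Pool.Agent.Lib.MP_b7b3c1_ag

open MvPolynomial

section gen

variable {K : Type} [Field K]

/-- Jacobian matrix of the move `R`. -/
noncomputable def JR (l : K) : Matrix (Fin 6) (Fin 6) K :=
  !![1, -l, 0, 0, 0, 0;
     0, 1, 0, 0, 0, 0;
     l, -l ^ 2, 1, -l, 0, 0;
     0, l, 0, 1, 0, 0;
     l ^ 2, -l ^ 3, 2 * l, -(2 * l ^ 2), 1, -l;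
     0, l ^ 2, 0, 2 * l, 0, 1]

theorem det_JR (l : K) : (JR l).det = 1 := by
  simp [JR, Matrix.det_succ_row_zero, Fin.sum_univ_succ, Fin.succAbove, Matrix.submatrix]

/-- Jacobian matrix of the move `tau`. -/
noncomputable def Jtau (x : Fin 6 → K) : Matrix (Fin 6) (Fin 6) K :=
  !![-1, 0, 2 * x 2 * (x 4)⁻¹, 0, -(x 2 ^ 2 * (x 4)⁻¹ ^ 2), 0;
     x 2, x 4, -2 * x 3 + x 0 + (2 * x 5 * x 2 - 3 * x 2 ^ 2) * (x 4)⁻¹, -2 * x 2,
       x 1 - (x 5 * x 2 ^ 2 - x 2 ^ 3) * (x 4)⁻¹ ^ 2, x 2 ^ 2 * (x 4)⁻¹;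
     0, 0, -(x 4)⁻¹, 0, x 2 * (x 4)⁻¹ ^ 2, 0;
     -1, 0, (2 * x 2 - x 5) * (x 4)⁻¹, 1, -((x 2 ^ 2 - x 2 * x 5) * (x 4)⁻¹ ^ 2),
       -(x 2 * (x 4)⁻¹);
     0, 0, 0, 0, -(x 4)⁻¹ ^ 2, 0;
     0, 0, -(x 4)⁻¹, 0, -((x 5 - x 2) * (x 4)⁻¹ ^ 2), (x 4)⁻¹]

theorem det_Jtau (x : Fin 6 → K) (h : x 4 ≠ 0) : (Jtau x).det = -((x 4)⁻¹ ^ 3) := by
  simp [Jtau, Matrix.det_succ_row_zero, Fin.sum_univ_succ, Fin.succAbove, Matrix.submatrix]
  field_simp
  try ring

variable [Algebra ℂ K]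

theorem D_rR (l : ℂ) (x : Fin 6 → K) (i : Fin 6) : KaehlerDifferential.D ℂ K (rR l x i) =
    ∑ j, JR (algebraMap ℂ K l) i j • KaehlerDifferential.D ℂ K (x j) := by
  have key : ∀ (c : ℂ) (w : Ω[K⁄ℂ]), c • w = algebraMap ℂ K c • w :=
    fun c w => (algebraMap_smul K c w).symm
  fin_cases i <;>
    simp [-algebraMap_smul, rR, JR, Fin.sum_univ_succ, key, map_mul, map_pow, map_ofNat] <;>
      module

theorem D_rT (l : ℂ) (x : Fin 6 → K) (i : Fin 6) : KaehlerDifferential.D ℂ K (rT l x i) =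
    KaehlerDifferential.D ℂ K (x i) := by
  fin_cases i <;> simp [rT]

theorem D_rtau (x : Fin 6 → K) (i : Fin 6) : KaehlerDifferential.D ℂ K (rtau x i) =
    ∑ j, Jtau x i j • KaehlerDifferential.D ℂ K (x j) := by
  have h2 : KaehlerDifferential.D ℂ K (2 : K) = 0 := by
    have := (KaehlerDifferential.D ℂ K).map_algebraMap 2
    rwa [map_ofNat] at this
  have p2 : ∀ a : K, KaehlerDifferential.D ℂ K (a ^ 2) =
      (2 * a) • KaehlerDifferential.D ℂ K a := by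
    intro a
    rw [pow_two, Derivation.leibniz]; module
  have p3 : ∀ a : K, KaehlerDifferential.D ℂ K (a ^ 3) =
      (3 * a ^ 2) • KaehlerDifferential.D ℂ K a := by
    intro a
    rw [pow_succ, Derivation.leibniz, p2]; module
  fin_cases i <;>
    simp [rtau, Jtau, Fin.sum_univ_succ, Derivation.leibniz, Derivation.leibniz_inv,
      p2, p3, h2] <;> module

end gen

theorem om_rR (l : ℂ) (x : Fin 6 → KK) : om (rR l x) = om x := by
  rw [om_of_jacobian _ (D_rR l x), det_JR, one_smul]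

theorem om_rT (l : ℂ) (x : Fin 6 → KK) : om (rT l x) = om x := by
  rw [om_of_jacobian (x := x) (x' := rT l x) 1 ?_, Matrix.det_one, one_smul]
  intro i
  rw [D_rT]
  simp [Matrix.one_apply]

theorem om_rtau (x : Fin 6 → KK) (h : x 4 ≠ 0) : om (rtau x) = -((x 4)⁻¹ ^ 3) • om x := by
  rw [om_of_jacobian _ (D_rtau x), det_Jtau x h]

theorem Reach.om_eq {M M' : Matrix (Fin 20) (Fin 20) ℂ} {x : Fin 6 → KK} {t : KK}
    (h : Reach M M' x t) : t ^ 3 • om x = om xi := by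
  induction h with
  | one => rw [one_pow, one_smul]
  | R l h ih => rw [om_rR, ih]
  | T l h ih => rw [om_rT, ih]
  | @tau M M' x t h ih =>
    have hx := h.isChart.x_ne_zero 4
    rw [om_rtau x hx, smul_smul, ← ih]
    congr 1
    field_simp

theorem span_unit {p : Fin 20 → ℂ} {u : KKˣ} (hu : u ∈ UU p) (w : VV) :
    Submodule.span (LL p) {(u : KK) • w} = Submodule.span (LL p) {w} := by
  rw [mem_UU] at hu
  apply le_antisymm
  · rw [Submodule.span_le, Set.singleton_subset_iff]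
    have : (u : KK) • w = (⟨(u : KK), hu.1⟩ : LL p) • w := rfl
    rw [this]
    exact Submodule.smul_mem _ _ (Submodule.mem_span_singleton_self _)
  · rw [Submodule.span_le, Set.singleton_subset_iff]
    have : w = (⟨((u⁻¹ : KKˣ) : KK), hu.2⟩ : LL p) • ((u : KK) • w) := by
      change w = ((u⁻¹ : KKˣ) : KK) • ((u : KK) • w)
      rw [smul_smul, Units.inv_mul, one_smul]
    rw [SetLike.mem_coe, this]
    exact Submodule.smul_mem _ _ (by rw [← this]; exact Submodule.mem_span_singleton_self _)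

theorem canonical_XX : XX.IsCanonical 6 (fun q => HH q ^ (-3 : ℤ)) := by
  refine ⟨(1 : KK), xi, ?_, fun q => ?_⟩
  · change (1 : KK) • om xi ≠ 0
    rw [one_smul]
    exact om_xi_ne_zero
  obtain ⟨M, M', x, t, hR, hq⟩ := exists_reach q.2.1
  change fS q.1 = Submodule.span (LL q.1)
    {(((HH q ^ (-3 : ℤ))⁻¹ : KKˣ) : KK) • (1 : KK) • om xi}
  rw [fS_chart hR.isChart q.2 hq]
  have hu := Subgroup.pow_mem _ (HH_tu hR.isChart q hq) 3
  rw [← span_unit hu (om x)]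
  congr 2
  rw [one_smul, ← hR.om_eq, smul_smul]
  congr 1
  rw [zpow_neg, inv_inv, mul_pow, Units.val_mul, Units.val_pow_eq_pow_val,
    Units.val_pow_eq_pow_val, Units.val_zpow_eq_zpow_val]
  rfl

end Pool.Agent.Lib.MP_b7b3c1_ag
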