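import Mathlib

set_option autoImplicit false

/-!
# The polynomials `cF` and the elementary moves

`cF x` is the vector of the 20 coefficients of the pair of ternary cubic forms attached to the
commutative algebra structure with parameters `x`: the norm form and the determinant of the Gram
matrix. The moves `R`, `T` and `tau` act linearly on these vectors.
-/

namespace Pool.Agent.Lib.MP_b7b3c1_ag

open MvPolynomial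

section cF

variable {R : Type} [CommRing R]

/-- The 20 coordinates of the point with parameters `x`. -/
def cF (x : Fin 6 → R) : Fin 20 → R :=
  ![1,
    x 0 + x 3,
    x 2 + x 5,
    2 * x 0 * x 3 - 2 * x 1 * x 2 + x 1 * x 5 - x 3 ^ 2,
    x 0 * x 5 - 3 * x 1 * x 4 + 2 * x 2 * x 3,
    x 0 * x 4 - x 2 ^ 2 + 2 * x 2 * x 5 - 2 * x 3 * x 4,
    x 0 * x 3 ^ 2 + x 1 ^ 2 * x 4 - 2 * x 1 * x 2 * x 3 + x 1 * x 3 * x 5 - x 3 ^ 3,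
    -2 * x 0 * x 1 * x 4 + x 0 * x 3 * x 5 + 2 * x 1 * x 2 ^ 2 - 3 * x 1 * x 2 * x 5 +
      x 1 * x 3 * x 4 + x 1 * x 5 ^ 2 + x 2 * x 3 ^ 2 - x 3 ^ 2 * x 5,
    x 0 ^ 2 * x 4 - x 0 * x 2 ^ 2 + x 0 * x 2 * x 5 - 3 * x 0 * x 3 * x 4 + x 1 * x 2 * x 4 -
      2 * x 1 * x 4 * x 5 + x 2 ^ 2 * x 3 + 2 * x 3 ^ 2 * x 4,
    x 0 * x 2 * x 4 + x 1 * x 4 ^ 2 - x 2 ^ 3 + x 2 ^ 2 * x 5 - 2 * x 2 * x 3 * x 4,
    x 0 ^ 2 * x 3 * x 4 - x 0 * x 1 * x 2 * x 4 + x 0 * x 1 * x 4 * x 5 - x 0 * x 2 ^ 2 * x 3 +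
      x 0 * x 2 * x 3 * x 5 - 2 * x 0 * x 3 ^ 2 * x 4 - x 1 ^ 2 * x 4 ^ 2 + x 1 * x 2 ^ 3 -
      2 * x 1 * x 2 ^ 2 * x 5 + 3 * x 1 * x 2 * x 3 * x 4 + x 1 * x 2 * x 5 ^ 2 -
      x 1 * x 3 * x 4 * x 5 - x 2 * x 3 ^ 2 * x 5 + x 3 ^ 3 * x 4,
    -x 0 ^ 2 * x 4 + x 0 * x 2 ^ 2 - x 0 * x 2 * x 5 - x 1 * x 2 * x 4 - x 1 * x 4 * x 5 +
      2 * x 2 ^ 2 * x 3 + x 3 ^ 2 * x 4,
    -x 0 * x 1 * x 4 - x 0 * x 3 * x 5 + x 1 * x 2 ^ 2 - x 1 * x 3 * x 4 - x 1 * x 5 ^ 2 +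
      2 * x 2 * x 3 ^ 2 + x 3 ^ 2 * x 5,
    2 * x 0 * x 4 - 2 * x 2 ^ 2 + x 2 * x 5 - x 3 * x 4,
    x 0 * x 5 + 3 * x 1 * x 4 - 4 * x 2 * x 3,
    x 0 * x 3 - x 1 * x 2 + 2 * x 1 * x 5 - 2 * x 3 ^ 2,
    -x 4,
    2 * x 2 - x 5,
    -x 0 + 2 * x 3,
    -x 1]

theorem map_cF {S : Type} [CommRing S] (f : R →+* S) (x : Fin 6 → R) (j : Fin 20) :
    f (cF x j) = cF (fun i => f (x i)) j := by
  fin_cases j <;> simp [cF, map_ofNat]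

theorem cF_zero (x : Fin 6 → R) : cF x 0 = 1 := rfl

end cF

section act

/-- The action of a complex matrix on vectors with entries in a complex vector space. -/
def act {m : ℕ} {R : Type} [AddCommMonoid R] [Module ℂ R] (M : Matrix (Fin m) (Fin m) ℂ)
    (y : Fin m → R) : Fin m → R :=
  fun j => ∑ i, M j i • y i

variable {m : ℕ} {R S : Type} [AddCommMonoid R] [Module ℂ R] [AddCommMonoid S] [Module ℂ S]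

theorem act_apply (M : Matrix (Fin m) (Fin m) ℂ) (y : Fin m → R) (j : Fin m) :
    act M y j = ∑ i, M j i • y i := rfl

theorem act_one (y : Fin m → R) : act 1 y = y := by
  funext j
  rw [act_apply, Finset.sum_eq_single j]
  · rw [Matrix.one_apply_eq, one_smul]
  · intro i _ hij
    rw [Matrix.one_apply_ne (Ne.symm hij), zero_smul]
  · intro h; exact absurd (Finset.mem_univ j) h

theorem act_mul (M M' : Matrix (Fin m) (Fin m) ℂ) (y : Fin m → R) :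
    act (M * M') y = act M (act M' y) := by
  funext j
  simp only [act_apply, Matrix.mul_apply, Finset.sum_smul, Finset.smul_sum, mul_smul]
  exact Finset.sum_comm

theorem map_act (f : R →ₗ[ℂ] S) (M : Matrix (Fin m) (Fin m) ℂ) (y : Fin m → R) (j : Fin m) :
    f (act M y j) = act M (fun i => f (y i)) j := by
  simp only [act_apply, map_sum, map_smul]

theorem act_add (M : Matrix (Fin m) (Fin m) ℂ) (y y' : Fin m → R) :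
    act M (y + y') = act M y + act M y' := by
  funext j
  simp only [act_apply, Pi.add_apply, smul_add, Finset.sum_add_distrib]

theorem act_zero (M : Matrix (Fin m) (Fin m) ℂ) : act M (0 : Fin m → R) = 0 := by
  funext j
  simp only [act_apply, Pi.zero_apply, smul_zero, Finset.sum_const_zero]

theorem act_smul {A : Type} [CommRing A] [Algebra ℂ A] (M : Matrix (Fin m) (Fin m) ℂ) (t : A)
    (y : Fin m → A) : act M (fun i => t * y i) = fun i => t * act M y i := by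
  funext j
  simp only [act_apply, Finset.mul_sum, mul_smul_comm]

end act

section moves

/-- Matrix of the move `R`: `e_2 ↦ e_2 + l e_1`. -/
def MR (l : ℂ) : Matrix (Fin 20) (Fin 20) ℂ :=
  !![1, 0, 0, 0, 0, 0, 0, 0, 0, 0, 0, 0, 0, 0, 0, 0, 0, 0, 0, 0;
     0, 1, 0, 0, 0, 0, 0, 0, 0, 0, 0, 0, 0, 0, 0, 0, 0, 0, 0, 0;
     0, l, 1, 0, 0, 0, 0, 0, 0, 0, 0, 0, 0, 0, 0, 0, 0, 0, 0, 0;
     0, 0, 0, 1, 0, 0, 0, 0, 0, 0, 0, 0, 0, 0, 0, 0, 0, 0, 0, 0;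
     0, 0, 0, 2 * l, 1, 0, 0, 0, 0, 0, 0, 0, 0, 0, 0, 0, 0, 0, 0, 0;
     0, 0, 0, l ^ 2, l, 1, 0, 0, 0, 0, 0, 0, 0, 0, 0, 0, 0, 0, 0, 0;
     0, 0, 0, 0, 0, 0, 1, 0, 0, 0, 0, 0, 0, 0, 0, 0, 0, 0, 0, 0;
     0, 0, 0, 0, 0, 0, 3 * l, 1, 0, 0, 0, 0, 0, 0, 0, 0, 0, 0, 0, 0;
     0, 0, 0, 0, 0, 0, 3 * l ^ 2, 2 * l, 1, 0, 0, 0, 0, 0, 0, 0, 0, 0, 0, 0;
     0, 0, 0, 0, 0, 0, l ^ 3, l ^ 2, l, 1, 0, 0, 0, 0, 0, 0, 0, 0, 0, 0;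
     0, 0, 0, 0, 0, 0, 0, 0, 0, 0, 1, 0, 0, 0, 0, 0, 0, 0, 0, 0;
     0, 0, 0, 0, 0, 0, 0, 0, 0, 0, 0, 1, -l, 0, 0, 0, 0, 0, 0, 0;
     0, 0, 0, 0, 0, 0, 0, 0, 0, 0, 0, 0, 1, 0, 0, 0, 0, 0, 0, 0;
     0, 0, 0, 0, 0, 0, 0, 0, 0, 0, 0, 0, 0, 1, -l, l ^ 2, 0, 0, 0, 0;
     0, 0, 0, 0, 0, 0, 0, 0, 0, 0, 0, 0, 0, 0, 1, -2 * l, 0, 0, 0, 0;
     0, 0, 0, 0, 0, 0, 0, 0, 0, 0, 0, 0, 0, 0, 0, 1, 0, 0, 0, 0;
     0, 0, 0, 0, 0, 0, 0, 0, 0, 0, 0, 0, 0, 0, 0, 0, 1, -l, l ^ 2, -l ^ 3;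
     0, 0, 0, 0, 0, 0, 0, 0, 0, 0, 0, 0, 0, 0, 0, 0, 0, 1, -2 * l, 3 * l ^ 2;
     0, 0, 0, 0, 0, 0, 0, 0, 0, 0, 0, 0, 0, 0, 0, 0, 0, 0, 1, -3 * l;
     0, 0, 0, 0, 0, 0, 0, 0, 0, 0, 0, 0, 0, 0, 0, 0, 0, 0, 0, 1]

/-- Matrix of the move `T`: `e_2 ↦ e_2 + l e_0`. -/
def MT (l : ℂ) : Matrix (Fin 20) (Fin 20) ℂ :=
  !![1, 0, 0, 0, 0, 0, 0, 0, 0, 0, 0, 0, 0, 0, 0, 0, 0, 0, 0, 0;
     0, 1, 0, 0, 0, 0, 0, 0, 0, 0, 0, 0, 0, 0, 0, 0, 0, 0, 0, 0;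
     3 * l, 0, 1, 0, 0, 0, 0, 0, 0, 0, 0, 0, 0, 0, 0, 0, 0, 0, 0, 0;
     0, 0, 0, 1, 0, 0, 0, 0, 0, 0, 0, 0, 0, 0, 0, 0, 0, 0, 0, 0;
     0, 2 * l, 0, 0, 1, 0, 0, 0, 0, 0, 0, 0, 0, 0, 0, 0, 0, 0, 0, 0;
     3 * l ^ 2, 0, 2 * l, 0, 0, 1, 0, 0, 0, 0, 0, 0, 0, 0, 0, 0, 0, 0, 0, 0;
     0, 0, 0, 0, 0, 0, 1, 0, 0, 0, 0, 0, 0, 0, 0, 0, 0, 0, 0, 0;
     0, 0, 0, l, 0, 0, 0, 1, 0, 0, 0, 0, 0, 0, 0, 0, 0, 0, 0, 0;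
     0, l ^ 2, 0, 0, l, 0, 0, 0, 1, 0, 0, 0, 0, 0, 0, 0, 0, 0, 0, 0;
     l ^ 3, 0, l ^ 2, 0, 0, l, 0, 0, 0, 1, 0, 0, 0, 0, 0, 0, 0, 0, 0, 0;
     0, 0, 0, 0, 0, 0, 0, 0, 0, 0, 1, 0, -l, 0, 0, l ^ 2, 0, 0, 0, -l ^ 3;
     0, 0, 0, 0, 0, 0, 0, 0, 0, 0, 0, 1, 0, 0, -l, 0, 0, 0, l ^ 2, 0;
     0, 0, 0, 0, 0, 0, 0, 0, 0, 0, 0, 0, 1, 0, 0, -2 * l, 0, 0, 0, 3 * l ^ 2;
     0, 0, 0, 0, 0, 0, 0, 0, 0, 0, 0, 0, 0, 1, 0, 0, 0, -l, 0, 0;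
     0, 0, 0, 0, 0, 0, 0, 0, 0, 0, 0, 0, 0, 0, 1, 0, 0, 0, -2 * l, 0;
     0, 0, 0, 0, 0, 0, 0, 0, 0, 0, 0, 0, 0, 0, 0, 1, 0, 0, 0, -3 * l;
     0, 0, 0, 0, 0, 0, 0, 0, 0, 0, 0, 0, 0, 0, 0, 0, 1, 0, 0, 0;
     0, 0, 0, 0, 0, 0, 0, 0, 0, 0, 0, 0, 0, 0, 0, 0, 0, 1, 0, 0;
     0, 0, 0, 0, 0, 0, 0, 0, 0, 0, 0, 0, 0, 0, 0, 0, 0, 0, 1, 0;
     0, 0, 0, 0, 0, 0, 0, 0, 0, 0, 0, 0, 0, 0, 0, 0, 0, 0, 0, 1]

/-- Matrix of the move `tau`: transposition followed by the exchange of `e_0` and `e_1`. -/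
def Mtau : Matrix (Fin 20) (Fin 20) ℂ :=
  !![0, 0, 0, 0, 0, 0, 0, 0, 0, 0, 0, 0, 0, 0, 0, 0, 1, 0, 0, 0;
     0, 0, 0, 0, 0, 0, 0, 0, 0, 0, 0, 0, 0, 1, 0, 0, 0, 0, 0, 0;
     0, 0, 0, 0, 0, 0, 0, 0, 0, 0, 0, 0, 0, 0, 0, 0, 0, 1, 0, 0;
     0, 0, 0, 0, 0, 0, 0, 0, 0, 0, 0, 1, 0, 0, 0, 0, 0, 0, 0, 0;
     0, 0, 0, 0, 0, 0, 0, 0, 0, 0, 0, 0, 0, 0, 1, 0, 0, 0, 0, 0;
     0, 0, 0, 0, 0, 0, 0, 0, 0, 0, 0, 0, 0, 0, 0, 0, 0, 0, 1, 0;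
     0, 0, 0, 0, 0, 0, 0, 0, 0, 0, 1, 0, 0, 0, 0, 0, 0, 0, 0, 0;
     0, 0, 0, 0, 0, 0, 0, 0, 0, 0, 0, 0, 1, 0, 0, 0, 0, 0, 0, 0;
     0, 0, 0, 0, 0, 0, 0, 0, 0, 0, 0, 0, 0, 0, 0, 1, 0, 0, 0, 0;
     0, 0, 0, 0, 0, 0, 0, 0, 0, 0, 0, 0, 0, 0, 0, 0, 0, 0, 0, 1;
     0, 0, 0, 0, 0, 0, 1, 0, 0, 0, 0, 0, 0, 0, 0, 0, 0, 0, 0, 0;
     0, 0, 0, 1, 0, 0, 0, 0, 0, 0, 0, 0, 0, 0, 0, 0, 0, 0, 0, 0;
     0, 0, 0, 0, 0, 0, 0, 1, 0, 0, 0, 0, 0, 0, 0, 0, 0, 0, 0, 0;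
     0, 1, 0, 0, 0, 0, 0, 0, 0, 0, 0, 0, 0, 0, 0, 0, 0, 0, 0, 0;
     0, 0, 0, 0, 1, 0, 0, 0, 0, 0, 0, 0, 0, 0, 0, 0, 0, 0, 0, 0;
     0, 0, 0, 0, 0, 0, 0, 0, 1, 0, 0, 0, 0, 0, 0, 0, 0, 0, 0, 0;
     1, 0, 0, 0, 0, 0, 0, 0, 0, 0, 0, 0, 0, 0, 0, 0, 0, 0, 0, 0;
     0, 0, 1, 0, 0, 0, 0, 0, 0, 0, 0, 0, 0, 0, 0, 0, 0, 0, 0, 0;
     0, 0, 0, 0, 0, 1, 0, 0, 0, 0, 0, 0, 0, 0, 0, 0, 0, 0, 0, 0;
     0, 0, 0, 0, 0, 0, 0, 0, 0, 1, 0, 0, 0, 0, 0, 0, 0, 0, 0, 0]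

variable {R : Type} [AddCommGroup R] [Module ℂ R]

theorem act_MR (l : ℂ) (y : Fin 20 → R) : act (MR l) y =
    ![y 0,
      y 1,
      (l) • y 1 + y 2,
      y 3,
      (2 * l) • y 3 + y 4,
      (l ^ 2) • y 3 + (l) • y 4 + y 5,
      y 6,
      (3 * l) • y 6 + y 7,
      (3 * l ^ 2) • y 6 + (2 * l) • y 7 + y 8,
      (l ^ 3) • y 6 + (l ^ 2) • y 7 + (l) • y 8 + y 9,
      y 10,
      y 11 - (l) • y 12,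
      y 12,
      y 13 - (l) • y 14 + (l ^ 2) • y 15,
      y 14 - (2 * l) • y 15,
      y 15,
      y 16 - (l) • y 17 + (l ^ 2) • y 18 - (l ^ 3) • y 19,
      y 17 - (2 * l) • y 18 + (3 * l ^ 2) • y 19,
      y 18 - (3 * l) • y 19,
      y 19] := by
  funext j
  fin_cases j <;> simp [act, MR, Fin.sum_univ_succ, sub_eq_add_neg, add_assoc]

theorem act_MT (l : ℂ) (y : Fin 20 → R) : act (MT l) y =
    ![y 0,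
      y 1,
      (3 * l) • y 0 + y 2,
      y 3,
      (2 * l) • y 1 + y 4,
      (3 * l ^ 2) • y 0 + (2 * l) • y 2 + y 5,
      y 6,
      (l) • y 3 + y 7,
      (l ^ 2) • y 1 + (l) • y 4 + y 8,
      (l ^ 3) • y 0 + (l ^ 2) • y 2 + (l) • y 5 + y 9,
      y 10 - (l) • y 12 + (l ^ 2) • y 15 - (l ^ 3) • y 19,
      y 11 - (l) • y 14 + (l ^ 2) • y 18,
      y 12 - (2 * l) • y 15 + (3 * l ^ 2) • y 19,
      y 13 - (l) • y 17,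
      y 14 - (2 * l) • y 18,
      y 15 - (3 * l) • y 19,
      y 16,
      y 17,
      y 18,
      y 19] := by
  funext j
  fin_cases j <;> simp [act, MT, Fin.sum_univ_succ, sub_eq_add_neg, add_assoc]

theorem act_Mtau (y : Fin 20 → R) : act Mtau y =
    ![y 16, y 13, y 17, y 11, y 14, y 18, y 10, y 12, y 15, y 19, y 6, y 3, y 7, y 1, y 4, y 8, y 0, y 2, y 5, y 9] := by
  funext j
  fin_cases j <;> simp [act, Mtau, Fin.sum_univ_succ]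

end moves

section param

variable {R : Type} [CommRing R] [Algebra ℂ R]

/-- The linear coordinates recovering the parameters from the coordinates. -/
noncomputable def lc (y : Fin 20 → R) : Fin 6 → R :=
  ![(1 / 3 : ℂ) • ((2 : ℂ) • y 1 - y 18), -y 19, (1 / 3 : ℂ) • (y 2 + y 17),
    (1 / 3 : ℂ) • (y 1 + y 18), -y 16, (1 / 3 : ℂ) • ((2 : ℂ) • y 2 - y 17)]

theorem lc_cF (x : Fin 6 → R) : lc (cF x) = x := by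
  have h2 : algebraMap ℂ R 2 = 2 := map_ofNat _ 2
  have h3 : algebraMap ℂ R (1 / 3) * 3 = 1 := by
    rw [← map_ofNat (algebraMap ℂ R) 3, ← map_mul]; norm_num
  funext i
  fin_cases i <;> simp only [lc, cF, Algebra.smul_def, Matrix.cons_val, Fin.reduceFinMk,
    Fin.zero_eta, Fin.mk_one, Fin.isValue, h2, neg_neg] <;>
    first
    | rfl
    | linear_combination (x 0) * h3
    | linear_combination (x 1) * h3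
    | linear_combination (x 2) * h3
    | linear_combination (x 3) * h3
    | linear_combination (x 4) * h3
    | linear_combination (x 5) * h3

theorem lc_smul (t : R) (y : Fin 20 → R) : lc (fun j => t * y j) = fun i => t * lc y i := by
  funext i
  fin_cases i <;> simp only [lc, Algebra.smul_def, Matrix.cons_val, Fin.reduceFinMk,
    Fin.zero_eta, Fin.mk_one, Fin.isValue] <;> ring

theorem map_lc {S : Type} [CommRing S] [Algebra ℂ S] (f : R →ₐ[ℂ] S) (y : Fin 20 → R)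
    (i : Fin 6) : f (lc y i) = lc (fun j => f (y j)) i := by
  fin_cases i <;> simp [lc]

/-- The parameters after the move `R`. -/
def rR (l : ℂ) (x : Fin 6 → R) : Fin 6 → R :=
  ![x 0 - l • x 1, x 1, x 2 + l • (x 0 - x 3) - l ^ 2 • x 1, x 3 + l • x 1,
    x 4 + (2 * l) • x 2 + l ^ 2 • x 0 - l • x 5 - (2 * l ^ 2) • x 3 - l ^ 3 • x 1,
    x 5 + (2 * l) • x 3 + l ^ 2 • x 1]

/-- The parameters after the move `T`. -/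
def rT (l : ℂ) (x : Fin 6 → R) : Fin 6 → R :=
  ![x 0, x 1, x 2 + algebraMap ℂ R l, x 3, x 4, x 5 + algebraMap ℂ R (2 * l)]

theorem act_MR_cF (l : ℂ) (x : Fin 6 → R) : act (MR l) (cF x) = cF (rR l x) := by
  rw [act_MR]
  funext j
  fin_cases j <;> simp only [cF, rR, Algebra.smul_def, Matrix.cons_val, Fin.reduceFinMk,
    Fin.zero_eta, Fin.mk_one, Fin.isValue, map_mul, map_pow, map_ofNat] <;> ring

theorem act_MT_cF (l : ℂ) (x : Fin 6 → R) : act (MT l) (cF x) = cF (rT l x) := by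
  rw [act_MT]
  funext j
  fin_cases j <;> simp only [cF, rT, Algebra.smul_def, Matrix.cons_val, Fin.reduceFinMk,
    Fin.zero_eta, Fin.mk_one, Fin.isValue, map_mul, map_pow, map_ofNat] <;> ring

end param

section paramField

variable {K : Type} [Field K] [Algebra ℂ K]

/-- The parameters after the move `tau`. -/
def rtau (x : Fin 6 → K) : Fin 6 → K :=
  ![x 2 ^ 2 * (x 4)⁻¹ - x 0,
    x 1 * x 4 - 2 * x 2 * x 3 + x 0 * x 2 + (x 5 * x 2 ^ 2 - x 2 ^ 3) * (x 4)⁻¹,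
    -x 2 * (x 4)⁻¹, x 3 - x 0 + (x 2 ^ 2 - x 2 * x 5) * (x 4)⁻¹, (x 4)⁻¹,
    (x 5 - x 2) * (x 4)⁻¹]

theorem act_Mtau_cF (x : Fin 6 → K) (h : x 4 ≠ 0) :
    act Mtau (cF x) = fun j => -x 4 * cF (rtau x) j := by
  rw [act_Mtau]
  funext j
  fin_cases j <;> simp only [cF, rtau, Matrix.cons_val, Fin.reduceFinMk,
    Fin.zero_eta, Fin.mk_one, Fin.isValue] <;> field_simp <;> ring

end paramField

end Pool.Agent.Lib.MP_b7b3c1_ag
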