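import Mathlib

set_option autoImplicit false

/-!
# Classical projective geometry over the complex numbers

Definitions used in the statement about Fano manifolds containing a linear subspace with trivial
normal bundle: closed subvarieties of projective space, their points, tangent spaces and local
rings, Cartier divisors, linear equivalence, hyperplane sections, canonical divisors, linear
subspaces and the triviality of their normal bundles.
-/

namespace Pool.Agent.Lib.MP_b7b3c1_ag

open MvPolynomial
open scoped ExteriorAlgebra

/-- An integral closed subvariety `X` of `ℙ^N` over `ℂ`, given by its generic point: `K` is the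
function field of `X` and `z 0, ..., z N` in `K`, not all zero, are the homogeneous coordinates of
the generic point. The homogeneous prime ideal of `X` is generated by the forms `F` with
`F(z) = 0`. The condition `generated` says that `K` is the function field of `X`: every element of
`K` is a quotient `F(z) / G(z)` of two forms of the same degree. -/
structure ProjVar (N : ℕ) where
  /-- the function field of `X` -/
  K : Type
  [fieldK : Field K]
  [algebraK : Algebra ℂ K]
  /-- homogeneous coordinates of the generic point -/
  z : Fin (N + 1) → K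
  exists_ne_zero : ∃ i, z i ≠ 0
  generated : ∀ x : K, ∃ (d : ℕ) (F G : MvPolynomial (Fin (N + 1)) ℂ),
    F.IsHomogeneous d ∧ G.IsHomogeneous d ∧ aeval z G ≠ 0 ∧ x * aeval z G = aeval z F

attribute [instance] ProjVar.fieldK ProjVar.algebraK

namespace ProjVar

variable {N : ℕ} (X : ProjVar N)

/-- The forms of degree `d` that vanish on `X` (that is, at its generic point). -/
def Vanishes (d : ℕ) (F : MvPolynomial (Fin (N + 1)) ℂ) : Prop :=
  F.IsHomogeneous d ∧ aeval X.z F = 0

/-- `p` in `ℂ^(N+1)` represents a closed point of `X`: it is nonzero and every form that vanishes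
on `X` vanishes at `p`. -/
def IsPoint (p : Fin (N + 1) → ℂ) : Prop :=
  p ≠ 0 ∧ ∀ d F, X.Vanishes d F → aeval p F = 0

/-- The closed points of `X` (each represented by its homogeneous coordinate vectors). -/
def Point : Type := {p : Fin (N + 1) → ℂ // X.IsPoint p}

/-- `v` is killed by the differentials at `p` of all forms vanishing on `X`. -/
def IsTangent (p v : Fin (N + 1) → ℂ) : Prop :=
  ∀ d F, X.Vanishes d F → ∑ i, aeval p (pderiv i F) * v i = 0

theorem isTangent_add (p v w : Fin (N + 1) → ℂ) (hv : X.IsTangent p v) (hw : X.IsTangent p w) :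
    X.IsTangent p (v + w) := by
  intro d F hF
  simp only [Pi.add_apply, mul_add, Finset.sum_add_distrib]
  rw [hv d F hF, hw d F hF, add_zero]

theorem isTangent_zero (p : Fin (N + 1) → ℂ) : X.IsTangent p 0 := by
  intro d F _
  simp

theorem isTangent_smul (p : Fin (N + 1) → ℂ) (c : ℂ) (v : Fin (N + 1) → ℂ)
    (hv : X.IsTangent p v) : X.IsTangent p (c • v) := by
  intro d F hF
  have h := hv d F hF
  simp only [Pi.smul_apply, smul_eq_mul]
  calc ∑ i, aeval p (pderiv i F) * (c * v i) = c * ∑ i, aeval p (pderiv i F) * v i := by
        rw [Finset.mul_sum]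
        exact Finset.sum_congr rfl fun i _ => by ring
    _ = 0 := by rw [h, mul_zero]

/-- The affine tangent space at `p`, a subspace of `ℂ^(N+1)`: the common kernel of the
differentials at `p` of all forms vanishing on `X`. It is the cone over the embedded projective
tangent space, so its dimension is one more than the dimension of the Zariski tangent space. -/
def affTangent (p : Fin (N + 1) → ℂ) : Submodule ℂ (Fin (N + 1) → ℂ) where
  carrier := {v | X.IsTangent p v}
  add_mem' := fun {v w} => X.isTangent_add p v w
  zero_mem' := X.isTangent_zero p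
  smul_mem' := X.isTangent_smul p

/-- `X` is smooth of dimension `n`: its function field has transcendence degree `n` over `ℂ` and
at every point the Zariski tangent space has dimension `n`. -/
def IsSmoothOfDim (n : ℕ) : Prop :=
  Algebra.trdeg ℂ X.K = n ∧
    ∀ p, X.IsPoint p → Module.finrank ℂ (X.affTangent p) = n + 1

/-- The rational function `x` on `X` is regular at the point `p`: it is a quotient `F(z) / G(z)`
of forms of the same degree with `G(p) ≠ 0`. -/
def IsRegularAt (p : Fin (N + 1) → ℂ) (x : X.K) : Prop :=
  ∃ (d : ℕ) (F G : MvPolynomial (Fin (N + 1)) ℂ), F.IsHomogeneous d ∧ G.IsHomogeneous d ∧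
    aeval p G ≠ 0 ∧ x * aeval X.z G = aeval X.z F

theorem isRegularAt_mul (p : Fin (N + 1) → ℂ) (x y : X.K) (hx : X.IsRegularAt p x)
    (hy : X.IsRegularAt p y) : X.IsRegularAt p (x * y) := by
  obtain ⟨d, F, G, hF, hG, h0, h1⟩ := hx
  obtain ⟨d', F', G', hF', hG', h0', h1'⟩ := hy
  refine ⟨d + d', F * F', G * G', hF.mul hF', hG.mul hG', ?_, ?_⟩
  · rw [map_mul]; exact mul_ne_zero h0 h0'
  · rw [map_mul, map_mul, ← h1, ← h1']; ring

theorem isRegularAt_add (p : Fin (N + 1) → ℂ) (x y : X.K) (hx : X.IsRegularAt p x)
    (hy : X.IsRegularAt p y) : X.IsRegularAt p (x + y) := by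
  obtain ⟨d, F, G, hF, hG, h0, h1⟩ := hx
  obtain ⟨d', F', G', hF', hG', h0', h1'⟩ := hy
  refine ⟨d + d', F * G' + G * F', G * G', (hF.mul hG').add (hG.mul hF'), hG.mul hG', ?_, ?_⟩
  · rw [map_mul]; exact mul_ne_zero h0 h0'
  · rw [map_mul, map_add, map_mul, map_mul, ← h1, ← h1']; ring

theorem isRegularAt_const (p : Fin (N + 1) → ℂ) (c : ℂ) :
    X.IsRegularAt p (algebraMap ℂ X.K c) := by
  refine ⟨0, C c, 1, isHomogeneous_C _ _, isHomogeneous_one _ _, ?_, ?_⟩
  · rw [map_one]; exact one_ne_zero
  · rw [map_one, mul_one, aeval_C]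

/-- The local ring of `X` at the point `p`, inside the function field. -/
def localRing (p : Fin (N + 1) → ℂ) : Subalgebra ℂ X.K where
  carrier := {x | X.IsRegularAt p x}
  mul_mem' := fun {x y} => X.isRegularAt_mul p x y
  add_mem' := fun {x y} => X.isRegularAt_add p x y
  algebraMap_mem' := X.isRegularAt_const p

/-- `u` is a unit of the local ring of `X` at `p`. -/
def IsUnitAt (p : Fin (N + 1) → ℂ) (u : X.Kˣ) : Prop :=
  (u : X.K) ∈ X.localRing p ∧ ((u⁻¹ : X.Kˣ) : X.K) ∈ X.localRing p

/-- A Cartier divisor on `X`, given by a local equation `D q` in the multiplicative group of the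
function field for every point `q`: around every point `p` there is an open neighbourhood
`{G ≠ 0}` on which all the `D q` agree, up to units of the local rings, with one rational
function `f`. -/
def IsCartier (D : X.Point → X.Kˣ) : Prop :=
  ∀ p : X.Point, ∃ (d : ℕ) (G : MvPolynomial (Fin (N + 1)) ℂ), G.IsHomogeneous d ∧
    aeval p.1 G ≠ 0 ∧ ∃ f : X.Kˣ, ∀ q : X.Point, aeval q.1 G ≠ 0 → X.IsUnitAt q.1 (D q / f)

/-- The divisor `D` is principal: it is the divisor of one rational function `g`. Two Cartier
divisors `D` and `D'` are linearly equivalent if `D / D'` is principal (the group of divisors is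
written multiplicatively), and the Picard group of `X` is the group of Cartier divisors modulo
the principal ones. -/
def IsPrincipal (D : X.Point → X.Kˣ) : Prop :=
  ∃ g : X.Kˣ, ∀ q : X.Point, X.IsUnitAt q.1 (D q / g)

/-- `H` is the divisor of a hyperplane section of `X`: for some linear form `L` not vanishing
identically on `X`, the local equation at a point `q` with `q i ≠ 0` is `L(z) / z i`. -/
def IsHyperplaneSection (H : X.Point → X.Kˣ) : Prop :=
  ∃ L : MvPolynomial (Fin (N + 1)) ℂ, L.IsHomogeneous 1 ∧ aeval X.z L ≠ 0 ∧
    ∀ (q : X.Point) (i : Fin (N + 1)), q.1 i ≠ 0 →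
      ∃ u : X.Kˣ, X.IsUnitAt q.1 u ∧ (H q : X.K) * X.z i = (u : X.K) * aeval X.z L

/-- The rational vector fields on `X`: the derivations of the function field over `ℂ`. -/
abbrev VectorField : Type := Derivation ℂ X.K X.K

/-- The rational `n`-form `d x_1 ∧ ... ∧ d x_n` on `X`. Rational `n`-forms are regarded as
functions of `n` rational vector fields (with values in the function field); this one sends
`θ_1, ..., θ_n` to the determinant of the matrix of the `θ_i (x_j)`. -/
noncomputable def wedge (n : ℕ) (x : Fin n → X.K) : (Fin n → X.VectorField) → X.K :=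
  fun θ => Matrix.det (fun i j => θ i (x j))

/-- The stalk at `p` of the sheaf of regular `n`-forms, inside the rational `n`-forms: the module
over the local ring spanned by the forms `d x_1 ∧ ... ∧ d x_n` with `x_1, ..., x_n` in the local
ring. -/
noncomputable def formStalk (n : ℕ) (p : Fin (N + 1) → ℂ) :
    Submodule (X.localRing p) ((Fin n → X.VectorField) → X.K) :=
  Submodule.span (X.localRing p)
    {w | ∃ x : Fin n → X.K, (∀ i, x i ∈ X.localRing p) ∧ w = X.wedge n x}

/-- `D` is a canonical divisor of the `n`-dimensional smooth variety `X`: it is the divisor of a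
nonzero rational `n`-form `ω = g d x_1 ∧ ... ∧ d x_n`, that is, at every point `q` the stalk of
the sheaf of regular `n`-forms is generated by `(D q)⁻¹ • ω`. -/
def IsCanonical (n : ℕ) (D : X.Point → X.Kˣ) : Prop :=
  ∃ (g : X.K) (x : Fin n → X.K), g • X.wedge n x ≠ 0 ∧ ∀ q : X.Point,
    X.formStalk n q.1 =
      Submodule.span (X.localRing q.1) {(((D q)⁻¹ : X.Kˣ) : X.K) • g • X.wedge n x}

/-- The projective space of the subspace `W` of `ℂ^(N+1)` is a `k`-dimensional linear subspace
contained in `X`. -/
def IsLinearSubspace (k : ℕ) (W : Submodule ℂ (Fin (N + 1) → ℂ)) : Prop :=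
  Module.finrank ℂ W = k + 1 ∧ ∀ p ∈ W, p ≠ 0 → X.IsPoint p

/-- The tangent vectors `v i`, for `i < m`, of `X` at the point `p` form a basis of the affine
tangent space at `p` modulo `W`: every vector of the affine tangent space is, modulo `W`, a unique
linear combination of them. -/
def IsBasisModulo (p : Fin (N + 1) → ℂ) (W : Submodule ℂ (Fin (N + 1) → ℂ)) (m : ℕ)
    (v : Fin m → Fin (N + 1) → ℂ) : Prop :=
  (∀ i, v i ∈ X.affTangent p) ∧
    ∀ u ∈ X.affTangent p, ∃! c : Fin m → ℂ, u - ∑ i, c i • v i ∈ W

/-- Triviality of the normal bundle in `X` of the linear subspace `Λ = ℙ(W)` of `X`, where `X` is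
smooth of dimension `n` and `Λ` has dimension `k`. The normal bundle of `Λ` in `ℙ^N` is
`Hom(O(-1), ℂ^(N+1) / W)`, and its global sections are the linear maps from `W` to
`ℂ^(N+1) / W`, each of which is induced by a linear endomorphism `φ` of `ℂ^(N+1)`. The normal
bundle of `Λ` in `X` is the subbundle of rank `n - k` whose fibre at `p` is the affine tangent
space of `X` at `p` modulo `W`. It is trivial if and only if it has `n - k` global sections `φ i`
that form a basis of the fibre at every point `p` of `Λ`. -/
def HasTrivialNormalBundle (n k : ℕ) (W : Submodule ℂ (Fin (N + 1) → ℂ)) : Prop :=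
  ∃ φ : Fin (n - k) → ((Fin (N + 1) → ℂ) →ₗ[ℂ] (Fin (N + 1) → ℂ)),
    ∀ p ∈ W, p ≠ 0 → X.IsBasisModulo p W (n - k) (fun i => φ i p)

end ProjVar

end Pool.Agent.Lib.MP_b7b3c1_ag
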