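import Pool.Agent.Lib.MP_b7b3c1_ag.Coord

set_option autoImplicit false

/-!
# Composition with linear maps and homogenisation
-/

namespace Pool.Agent.Lib.MP_b7b3c1_ag

open MvPolynomial

section pcomp

variable {m : ℕ}

/-- The polynomial `H` composed with the linear map of matrix `M`. -/
noncomputable def pcomp (M : Matrix (Fin m) (Fin m) ℂ) (H : MvPolynomial (Fin m) ℂ) :
    MvPolynomial (Fin m) ℂ :=
  aeval (act M (X : Fin m → MvPolynomial (Fin m) ℂ)) H

theorem aeval_pcomp {R : Type} [CommRing R] [Algebra ℂ R] (M : Matrix (Fin m) (Fin m) ℂ)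
    (y : Fin m → R) (H : MvPolynomial (Fin m) ℂ) :
    aeval y (pcomp M H) = aeval (act M y) H := by
  unfold pcomp
  have h : (aeval y).comp (aeval (act M (X : Fin m → MvPolynomial (Fin m) ℂ))) =
      (aeval (act M y) : MvPolynomial (Fin m) ℂ →ₐ[ℂ] R) := by
    apply MvPolynomial.algHom_ext
    intro i
    rw [AlgHom.comp_apply, aeval_X, aeval_X]
    have := map_act (aeval y : MvPolynomial (Fin m) ℂ →ₐ[ℂ] R).toLinearMap M
      (X : Fin m → MvPolynomial (Fin m) ℂ) i
    rw [AlgHom.toLinearMap_apply] at this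
    rw [this]
    congr 1
    funext k
    rw [AlgHom.toLinearMap_apply, aeval_X]
  rw [← h, AlgHom.comp_apply]

theorem act_X_homog (M : Matrix (Fin m) (Fin m) ℂ) (j : Fin m) :
    (act M (X : Fin m → MvPolynomial (Fin m) ℂ) j).IsHomogeneous 1 := by
  rw [act_apply]
  apply IsHomogeneous.sum
  intro i _
  rw [smul_eq_C_mul]
  simpa using (isHomogeneous_C (Fin m) (M j i)).mul (isHomogeneous_X ℂ i)

theorem pcomp_homog (M : Matrix (Fin m) (Fin m) ℂ) {H : MvPolynomial (Fin m) ℂ} {d : ℕ}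
    (hH : H.IsHomogeneous d) : (pcomp M H).IsHomogeneous d := by
  unfold pcomp
  have := hH.aeval (g := act M (X : Fin m → MvPolynomial (Fin m) ℂ)) (n := 1)
    (fun j => act_X_homog M j)
  simpa using this

/-- scaling -/
theorem aeval_smul_homog {R : Type} [CommRing R] [Algebra ℂ R] {H : MvPolynomial (Fin m) ℂ}
    {d : ℕ} (hH : H.IsHomogeneous d) (t : R) (y : Fin m → R) :
    aeval (fun i => t * y i) H = t ^ d * aeval y H := by
  rw [MvPolynomial.aeval_def, MvPolynomial.aeval_def, eval₂_eq', eval₂_eq', Finset.mul_sum]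
  apply Finset.sum_congr rfl
  intro k hk
  have hd : ∑ i, k i = d := by
    have h1 := hH (mem_support_iff.mp hk)
    rw [Finsupp.weight_apply, Finsupp.sum_fintype _ _ (by simp)] at h1
    simpa using h1
  simp only [mul_pow, Finset.prod_mul_distrib]
  rw [Finset.prod_pow_eq_pow_sum, hd]
  ring

end pcomp

section homogenise

/-- The linear coordinates as linear forms -/
theorem lc_X_homog (i : Fin 6) :
    (lc (X : Fin 20 → MvPolynomial (Fin 20) ℂ) i).IsHomogeneous 1 := by
  have hX : ∀ j : Fin 20, (X j : MvPolynomial (Fin 20) ℂ).IsHomogeneous 1 :=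
    fun j => isHomogeneous_X ℂ j
  have hs : ∀ (c : ℂ) (f : MvPolynomial (Fin 20) ℂ), f.IsHomogeneous 1 →
      (c • f).IsHomogeneous 1 := by
    intro c f hf
    rw [smul_eq_C_mul]
    simpa using (isHomogeneous_C (Fin 20) c).mul hf
  fin_cases i
  · exact hs _ _ ((hs _ _ (hX 1)).sub (hX 18))
  · exact (hX 19).neg
  · exact hs _ _ ((hX 2).add (hX 17))
  · exact hs _ _ ((hX 1).add (hX 18))
  · exact (hX 16).neg
  · exact hs _ _ ((hs _ _ (hX 2)).sub (hX 17))

/-- Homogenisation of polynomials in the parameters -/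
theorem exists_homog (g : MvPolynomial (Fin 6) ℂ) : ∃ d₀ : ℕ, ∀ d, d₀ ≤ d →
    ∃ G : MvPolynomial (Fin 20) ℂ, G.IsHomogeneous d ∧
      ∀ (R : Type) [CommRing R] [Algebra ℂ R] (y : Fin 20 → R) (x : Fin 6 → R),
        (∀ i, lc y i = y 0 * x i) → aeval y G = y 0 ^ d * aeval x g := by
  induction g using MvPolynomial.induction_on with
  | C c =>
    refine ⟨0, fun d _ => ⟨C c * X 0 ^ d, ?_, ?_⟩⟩
    · have := (isHomogeneous_C (Fin 20) c).mul ((isHomogeneous_X ℂ (0 : Fin 20)).pow d)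
      simpa using this
    · intro R _ _ y x _
      rw [map_mul, map_pow, aeval_C, aeval_X, aeval_C, mul_comm]
  | add p q hp hq =>
    obtain ⟨d1, h1⟩ := hp
    obtain ⟨d2, h2⟩ := hq
    refine ⟨max d1 d2, fun d hd => ?_⟩
    obtain ⟨G1, hG1, hG1'⟩ := h1 d (le_trans (le_max_left _ _) hd)
    obtain ⟨G2, hG2, hG2'⟩ := h2 d (le_trans (le_max_right _ _) hd)
    refine ⟨G1 + G2, hG1.add hG2, ?_⟩
    intro R _ _ y x hyx
    rw [map_add, map_add, hG1' R y x hyx, hG2' R y x hyx]
    ring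
  | mul_X p i hp =>
    obtain ⟨d1, h1⟩ := hp
    refine ⟨d1 + 1, fun d hd => ?_⟩
    obtain ⟨e, rfl⟩ : ∃ e, d = e + 1 := ⟨d - 1, by omega⟩
    obtain ⟨G, hG, hG'⟩ := h1 e (by omega)
    refine ⟨G * lc X i, hG.mul (lc_X_homog i), ?_⟩
    intro R _ _ y x hyx
    rw [map_mul, map_mul, aeval_X, hG' R y x hyx]
    have h2 : aeval y (lc (X : Fin 20 → MvPolynomial (Fin 20) ℂ) i) = lc y i := by
      rw [map_lc]
      congr 1
      funext j
      rw [aeval_X]
    rw [h2, hyx i]
    ring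

end homogenise

/-- The forms vanishing on the variety. -/
def Van (d : ℕ) (H : MvPolynomial (Fin 20) ℂ) : Prop :=
  H.IsHomogeneous d ∧ aeval (cF (X : Fin 6 → MvPolynomial (Fin 6) ℂ)) H = 0

theorem aeval_cF {R : Type} [CommRing R] [Algebra ℂ R] (x : Fin 6 → R)
    (H : MvPolynomial (Fin 20) ℂ) :
    aeval x (aeval (cF (X : Fin 6 → MvPolynomial (Fin 6) ℂ)) H) = aeval (cF x) H := by
  have h : (aeval x).comp (aeval (cF (X : Fin 6 → MvPolynomial (Fin 6) ℂ))) =
      (aeval (cF x) : MvPolynomial (Fin 20) ℂ →ₐ[ℂ] R) := by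
    apply MvPolynomial.algHom_ext
    intro i
    rw [AlgHom.comp_apply, aeval_X, aeval_X]
    have := map_cF (aeval x : MvPolynomial (Fin 6) ℂ →ₐ[ℂ] R).toRingHom
      (X : Fin 6 → MvPolynomial (Fin 6) ℂ) i
    simp only [AlgHom.toRingHom_eq_coe, RingHom.coe_coe, aeval_X] at this
    exact this
  rw [← h, AlgHom.comp_apply]

theorem Van.aeval_cF_eq {R : Type} [CommRing R] [Algebra ℂ R] {d : ℕ}
    {H : MvPolynomial (Fin 20) ℂ} (h : Van d H) (x : Fin 6 → R) : aeval (cF x) H = 0 := by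
  rw [← aeval_cF, h.2, map_zero]

/-- Points with values in a ring: a vector killed by the forms vanishing on the variety and with
invertible coordinate 0 is a multiple of some `cF x`. -/
theorem param_of_van {R : Type} [CommRing R] [Algebra ℂ R] (y : Fin 20 → R)
    (hy : ∀ d H, Van d H → aeval y H = 0) (u : R) (hu : y 0 * u = 1) (j : Fin 20) :
    y j = y 0 * cF (fun i => u * lc y i) j := by
  obtain ⟨d₀, hd⟩ := exists_homog (cF (X : Fin 6 → MvPolynomial (Fin 6) ℂ) j)
  obtain ⟨G, hG, hG'⟩ := hd (d₀ + 1) (by omega)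
  have hvan : Van (d₀ + 1) (X 0 ^ d₀ * X j - G) := by
    refine ⟨?_, ?_⟩
    · apply IsHomogeneous.sub _ hG
      have := ((isHomogeneous_X ℂ (0 : Fin 20)).pow d₀).mul (isHomogeneous_X ℂ j)
      simpa using this
    · have h1 := hG' (MvPolynomial (Fin 6) ℂ) (cF X) X (by
        intro i; rw [lc_cF, cF_zero, one_mul])
      rw [map_sub, map_mul, map_pow, aeval_X, aeval_X, h1, cF_zero, aeval_X_left,
        AlgHom.id_apply]
      ring
  have h1 := hy _ _ hvan
  have h2 := hG' R y (fun i => u * lc y i) (by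
    intro i; rw [← mul_assoc, hu, one_mul])
  have h3 : aeval (fun i => u * lc y i) (cF (X : Fin 6 → MvPolynomial (Fin 6) ℂ) j) =
      cF (fun i => u * lc y i) j := by
    have := aeval_cF (fun i => u * lc y i) (X j)
    rwa [aeval_X, aeval_X] at this
  rw [map_sub, map_mul, map_pow, aeval_X, aeval_X, h2, h3] at h1
  have h4 : y 0 ^ d₀ * y j = y 0 ^ (d₀ + 1) * cF (fun i => u * lc y i) j := by
    linear_combination h1
  calc y j = (y 0 * u) ^ d₀ * y j := by rw [hu, one_pow, one_mul]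
    _ = u ^ d₀ * (y 0 ^ d₀ * y j) := by ring
    _ = u ^ d₀ * (y 0 ^ (d₀ + 1) * cF (fun i => u * lc y i) j) := by rw [h4]
    _ = (y 0 * u) ^ d₀ * (y 0 * cF (fun i => u * lc y i) j) := by ring
    _ = _ := by rw [hu, one_pow, one_mul]

end Pool.Agent.Lib.MP_b7b3c1_ag
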