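import Pool.Agent.Lib.MP_b7b3c1_ag.Reach

set_option autoImplicit false

/-!
# The plane in `XX` and its normal bundle
-/

namespace Pool.Agent.Lib.MP_b7b3c1_ag

open MvPolynomial

section gen

variable {A : Type} [CommRing A]

/-- the permutation of coordinates given by `tau` -/
def tauv (y : Fin 20 → A) : Fin 20 → A :=
  ![y 16, y 13, y 17, y 11, y 14, y 18, y 10, y 12, y 15, y 19, y 6, y 3, y 7, y 1, y 4, y 8,
    y 0, y 2, y 5, y 9]

/-- the move `R` with parameter in a ring -/
def Rv (l : A) (y : Fin 20 → A) : Fin 20 → A :=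
  ![y 0, y 1, l * y 1 + y 2, y 3, 2 * l * y 3 + y 4, l ^ 2 * y 3 + l * y 4 + y 5, y 6,
    3 * l * y 6 + y 7, 3 * l ^ 2 * y 6 + 2 * l * y 7 + y 8,
    l ^ 3 * y 6 + l ^ 2 * y 7 + l * y 8 + y 9, y 10, y 11 - l * y 12, y 12,
    y 13 - l * y 14 + l ^ 2 * y 15, y 14 - 2 * l * y 15, y 15,
    y 16 - l * y 17 + l ^ 2 * y 18 - l ^ 3 * y 19, y 17 - 2 * l * y 18 + 3 * l ^ 2 * y 19,
    y 18 - 3 * l * y 19, y 19]

/-- the move `T` with parameter in a ring -/
def Tv (l : A) (y : Fin 20 → A) : Fin 20 → A :=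
  ![y 0, y 1, 3 * l * y 0 + y 2, y 3, 2 * l * y 1 + y 4, 3 * l ^ 2 * y 0 + 2 * l * y 2 + y 5,
    y 6, l * y 3 + y 7, l ^ 2 * y 1 + l * y 4 + y 8,
    l ^ 3 * y 0 + l ^ 2 * y 2 + l * y 5 + y 9,
    y 10 - l * y 12 + l ^ 2 * y 15 - l ^ 3 * y 19, y 11 - l * y 14 + l ^ 2 * y 18,
    y 12 - 2 * l * y 15 + 3 * l ^ 2 * y 19, y 13 - l * y 17, y 14 - 2 * l * y 18,
    y 15 - 3 * l * y 19, y 16, y 17, y 18, y 19]

end gen

theorem act_Mtau_eq (y : Fin 20 → ℂ) : act Mtau y = tauv y := act_Mtau y

theorem act_MR_eq (l : ℂ) (y : Fin 20 → ℂ) : act (MR l) y = Rv l y := by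
  rw [act_MR]; rfl

theorem act_MT_eq (l : ℂ) (y : Fin 20 → ℂ) : act (MT l) y = Tv l y := by
  rw [act_MT]; rfl

/-- derivative of `Rv` at 0 -/
noncomputable def dR : (Fin 20 → ℂ) →ₗ[ℂ] (Fin 20 → ℂ) where
  toFun y := ![0, 0, y 1, 0, 2 * y 3, y 4, 0, 3 * y 6, 2 * y 7, y 8, 0, -y 12, 0, -y 14,
    -(2 * y 15), 0, -y 17, -(2 * y 18), -(3 * y 19), 0]
  map_add' y y' := by
    funext j
    fin_cases j <;> simp <;> ring
  map_smul' c y := by
    funext j
    fin_cases j <;> simp <;> ring

/-- derivative of `Tv` at 0 -/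
noncomputable def dT : (Fin 20 → ℂ) →ₗ[ℂ] (Fin 20 → ℂ) where
  toFun y := ![0, 0, 3 * y 0, 0, 2 * y 1, 2 * y 2, 0, y 3, y 4, y 5, -y 12, -y 14,
    -(2 * y 15), -y 17, -(2 * y 18), -(3 * y 19), 0, 0, 0, 0]
  map_add' y y' := by
    funext j
    fin_cases j <;> simp <;> ring
  map_smul' c y := by
    funext j
    fin_cases j <;> simp <;> ring

/-- `tauv` as a linear map -/
noncomputable def tauL : (Fin 20 → ℂ) →ₗ[ℂ] (Fin 20 → ℂ) where
  toFun y := tauv y
  map_add' y y' := by
    funext j
    fin_cases j <;> rfl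
  map_smul' c y := by
    funext j
    fin_cases j <;> rfl

theorem aeval_eps (f : Polynomial ℂ) : Polynomial.aeval (DualNumber.eps : DualNumber ℂ) f =
    TrivSqZeroExt.inl (f.eval 0) + TrivSqZeroExt.inr (f.derivative.eval 0) := by
  induction f using Polynomial.induction_on' with
  | add f g hf hg =>
    rw [map_add, hf, hg]
    apply TrivSqZeroExt.ext <;> simp
  | monomial n a =>
    rw [Polynomial.aeval_monomial]
    rcases n with _ | _ | n
    · apply TrivSqZeroExt.ext <;> simp [TrivSqZeroExt.algebraMap_eq_inl]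
    · apply TrivSqZeroExt.ext <;> simp [TrivSqZeroExt.algebraMap_eq_inl]
    · have : (DualNumber.eps : DualNumber ℂ) ^ (n + 1 + 1) = 0 := by
        rw [pow_succ, pow_succ, mul_assoc, DualNumber.eps_mul_eps, mul_zero]
      rw [this, mul_zero]
      apply TrivSqZeroExt.ext <;> simp

/-- Derivatives of curves in the cone over the variety are tangent vectors. -/
theorem tangent_of_curve (y : Fin 20 → Polynomial ℂ)
    (hy : ∀ l : ℂ, ∀ d H, Van d H → aeval (fun i => (y i).eval l) H = 0) (d : ℕ)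
    (H : MvPolynomial (Fin 20) ℂ) (hH : Van d H) :
    aeval (dl (fun i => (y i).eval 0) (fun i => (y i).derivative.eval 0)) H = 0 := by
  have hP : aeval y H = 0 := by
    apply Polynomial.funext
    intro l
    rw [Polynomial.eval_zero]
    have h := hy l d H hH
    have e : (Polynomial.aeval l).comp (aeval y) =
        (aeval (fun i => (y i).eval l) : MvPolynomial (Fin 20) ℂ →ₐ[ℂ] ℂ) := by
      apply MvPolynomial.algHom_ext
      intro i
      rw [AlgHom.comp_apply, aeval_X, aeval_X, Polynomial.coe_aeval_eq_eval]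
    rw [← e, AlgHom.comp_apply, Polynomial.coe_aeval_eq_eval] at h
    exact h
  have e : (Polynomial.aeval (DualNumber.eps : DualNumber ℂ)).comp (aeval y) =
      (aeval (dl (fun i => (y i).eval 0) (fun i => (y i).derivative.eval 0)) :
        MvPolynomial (Fin 20) ℂ →ₐ[ℂ] DualNumber ℂ) := by
    apply MvPolynomial.algHom_ext
    intro i
    rw [AlgHom.comp_apply, aeval_X, aeval_X, aeval_eps]
    rfl
  rw [← e, AlgHom.comp_apply, hP, map_zero]

/-- constant vectors as vectors of polynomials -/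
noncomputable def cst (p : Fin 20 → ℂ) : Fin 20 → Polynomial ℂ := fun i => Polynomial.C (p i)

theorem eval_Rv (l : ℂ) (p : Fin 20 → ℂ) :
    (fun i => (Rv Polynomial.X (cst p) i).eval l) = Rv l p := by
  funext j
  fin_cases j <;> simp [Rv, cst] <;> ring

theorem eval_Tv (l : ℂ) (p : Fin 20 → ℂ) :
    (fun i => (Tv Polynomial.X (cst p) i).eval l) = Tv l p := by
  funext j
  fin_cases j <;> simp [Tv, cst] <;> ring

theorem eval_tauv (l : ℂ) (y : Fin 20 → Polynomial ℂ) :
    (fun i => (tauv y i).eval l) = tauv (fun i => (y i).eval l) := by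
  funext j
  fin_cases j <;> rfl

theorem deriv_tauv (y : Fin 20 → Polynomial ℂ) :
    (fun i => (tauv y i).derivative.eval 0) = tauv (fun i => (y i).derivative.eval 0) := by
  funext j
  fin_cases j <;> rfl

theorem deriv_Rv (p : Fin 20 → ℂ) :
    (fun i => (Rv Polynomial.X (cst p) i).derivative.eval 0) = dR p := by
  funext j
  fin_cases j <;> simp [Rv, cst, dR]

theorem deriv_Tv (p : Fin 20 → ℂ) :
    (fun i => (Tv Polynomial.X (cst p) i).derivative.eval 0) = dT p := by
  funext j
  fin_cases j <;> simp [Tv, cst, dT]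

theorem Rv_zero (p : Fin 20 → ℂ) : Rv 0 p = p := by
  funext j
  fin_cases j <;> simp [Rv]

theorem Tv_zero (p : Fin 20 → ℂ) : Tv 0 p = p := by
  funext j
  fin_cases j <;> simp [Tv]

theorem tauv_tauv (p : Fin 20 → ℂ) : tauv (tauv p) = p := by
  funext j
  fin_cases j <;> rfl

theorem killed_tauv {p : Fin 20 → ℂ} (hp : ∀ d H, Van d H → aeval p H = 0) (d : ℕ)
    (H : MvPolynomial (Fin 20) ℂ) (hH : Van d H) : aeval (tauv p) H = 0 := by
  have := IsChart.one.tau.act_killed hp d H hH
  rwa [Matrix.mul_one, act_Mtau_eq] at this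

theorem killed_Rv {p : Fin 20 → ℂ} (hp : ∀ d H, Van d H → aeval p H = 0) (l : ℂ) (d : ℕ)
    (H : MvPolynomial (Fin 20) ℂ) (hH : Van d H) : aeval (Rv l p) H = 0 := by
  have := (IsChart.one.R l).act_killed hp d H hH
  rwa [Matrix.mul_one, act_MR_eq] at this

theorem killed_Tv {p : Fin 20 → ℂ} (hp : ∀ d H, Van d H → aeval p H = 0) (l : ℂ) (d : ℕ)
    (H : MvPolynomial (Fin 20) ℂ) (hH : Van d H) : aeval (Tv l p) H = 0 := by
  have := (IsChart.one.T l).act_killed hp d H hH
  rwa [Matrix.mul_one, act_MT_eq] at this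

theorem dR_mem {p : Fin 20 → ℂ} (hp : XX.IsPoint p) : dR p ∈ XX.affTangent p := by
  rw [mem_affTangent_iff hp]
  intro d H hH
  have h := tangent_of_curve (Rv Polynomial.X (cst p)) (by
    intro l
    rw [eval_Rv]
    exact killed_Rv ((isPoint_iff p).1 hp).2 l) d H hH
  rwa [eval_Rv, deriv_Rv, Rv_zero] at h

theorem dT_mem {p : Fin 20 → ℂ} (hp : XX.IsPoint p) : dT p ∈ XX.affTangent p := by
  rw [mem_affTangent_iff hp]
  intro d H hH
  have h := tangent_of_curve (Tv Polynomial.X (cst p)) (by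
    intro l
    rw [eval_Tv]
    exact killed_Tv ((isPoint_iff p).1 hp).2 l) d H hH
  rwa [eval_Tv, deriv_Tv, Tv_zero] at h

theorem tdR_mem {p : Fin 20 → ℂ} (hp : XX.IsPoint p) :
    tauv (dR (tauv p)) ∈ XX.affTangent p := by
  rw [mem_affTangent_iff hp]
  intro d H hH
  have h := tangent_of_curve (tauv (Rv Polynomial.X (cst (tauv p)))) (by
    intro l
    rw [eval_tauv, eval_Rv]
    exact killed_tauv (killed_Rv (killed_tauv ((isPoint_iff p).1 hp).2) l)) d H hH
  rwa [eval_tauv, deriv_tauv, eval_Rv, deriv_Rv, Rv_zero, tauv_tauv] at h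

theorem tdT_mem {p : Fin 20 → ℂ} (hp : XX.IsPoint p) :
    tauv (dT (tauv p)) ∈ XX.affTangent p := by
  rw [mem_affTangent_iff hp]
  intro d H hH
  have h := tangent_of_curve (tauv (Tv Polynomial.X (cst (tauv p)))) (by
    intro l
    rw [eval_tauv, eval_Tv]
    exact killed_tauv (killed_Tv (killed_tauv ((isPoint_iff p).1 hp).2) l)) d H hH
  rwa [eval_tauv, deriv_tauv, eval_Tv, deriv_Tv, Tv_zero, tauv_tauv] at h

/-- The plane: `s = (β, γ, δ)`. -/
def pW {A : Type} [CommRing A] (s : Fin 3 → A) : Fin 20 → A :=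
  ![0, 0, s 1, 0, s 2, 0, 0, -s 0, 0, 0, 0, 0, s 0, 0, s 2, 0, 0, -s 1, 0, 0]

/-- the linear parametrisation of the plane -/
noncomputable def pWL : (Fin 3 → ℂ) →ₗ[ℂ] (Fin 20 → ℂ) where
  toFun := pW
  map_add' s s' := by
    funext j
    fin_cases j <;> simp [pW] <;> ring
  map_smul' c s := by
    funext j
    fin_cases j <;> simp [pW]

theorem pWL_injective : Function.Injective pWL := by
  rw [injective_iff_map_eq_zero]
  intro s hs
  have h0 := congrFun hs 12
  have h1 := congrFun hs 2
  have h2 := congrFun hs 4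
  funext i
  fin_cases i
  · exact h0
  · exact h1
  · exact h2

/-- The three-dimensional subspace defining the plane. -/
noncomputable def WW : Submodule ℂ (Fin 20 → ℂ) := LinearMap.range pWL

theorem finrank_WW : Module.finrank ℂ WW = 3 := by
  rw [WW, LinearMap.finrank_range_of_inj pWL_injective]
  simp

/-- The parameters of the points of the plane. -/
theorem param_pW {K : Type} [Field K] [Algebra ℂ K] (s : Fin 3 → K) (h : s 1 ≠ 0) :
    act Mtau (act (MR (-1)) (act Mtau (pW s))) =
      fun j => s 1 * cF ![s 2 / s 1, -s 0 / s 1, 0, 0, 0, 1] j := by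
  rw [act_Mtau, act_MR, act_Mtau]
  funext j
  fin_cases j <;> simp [pW, cF, Algebra.smul_def, map_ofNat] <;> field_simp

/-- Every vector of the plane is killed by the forms vanishing on the variety. -/
theorem killed_pW (s : Fin 3 → ℂ) (d : ℕ) (H : MvPolynomial (Fin 20) ℂ) (hH : Van d H) :
    aeval (pW s) H = 0 := by
  -- generic point of the plane
  let Q := MvPolynomial (Fin 3) ℂ
  let L := FractionRing Q
  let s' : Fin 3 → L := fun i => algebraMap Q L (X i)
  have hs1 : s' 1 ≠ 0 := by
    intro h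
    have := IsFractionRing.injective Q L (h.trans (map_zero _).symm)
    exact X_ne_zero (R := ℂ) (1 : Fin 3) this
  have hC := (IsChart.one.tau.R (-1)).tau
  have e1 : act (Mtau * (MR (-1) * (Mtau * 1))) (pW s') =
      fun j => s' 1 * cF ![s' 2 / s' 1, -s' 0 / s' 1, 0, 0, 0, 1] j := by
    rw [Matrix.mul_one, act_mul, act_mul]
    exact param_pW s' hs1
  have e2 := hC.killed_of_param (s' 1) ![s' 2 / s' 1, -s' 0 / s' 1, 0, 0, 0, 1] d H hH
  rw [← e1, hC.act2] at e2
  -- descend to the polynomial ring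
  have e3 : aeval (pW (X : Fin 3 → Q)) H = 0 := by
    apply IsFractionRing.injective Q L
    rw [map_zero, ← e2]
    have e4 : (IsScalarTower.toAlgHom ℂ Q L).comp (aeval (pW (X : Fin 3 → Q))) =
        (aeval (pW s') : MvPolynomial (Fin 20) ℂ →ₐ[ℂ] L) := by
      apply MvPolynomial.algHom_ext
      intro i
      rw [AlgHom.comp_apply, aeval_X, aeval_X]
      fin_cases i <;> simp [pW, s']
    rw [← e4]; rfl
  have e5 : (aeval s).comp (aeval (pW (X : Fin 3 → Q))) =
      (aeval (pW s) : MvPolynomial (Fin 20) ℂ →ₐ[ℂ] ℂ) := by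
    apply MvPolynomial.algHom_ext
    intro i
    rw [AlgHom.comp_apply, aeval_X, aeval_X]
    fin_cases i <;> simp [pW]
  rw [← e5, AlgHom.comp_apply, e3, map_zero]

theorem linear_WW : XX.IsLinearSubspace 2 WW := by
  refine ⟨finrank_WW, ?_⟩
  rintro p ⟨s, rfl⟩ hp
  rw [isPoint_iff]
  exact ⟨hp, fun d H hH => killed_pW s d H hH⟩

/-- The plane is contained in its tangent spaces. -/
theorem WW_le {p : Fin 20 → ℂ} (hpW : p ∈ WW) (hp : XX.IsPoint p) :
    WW ≤ XX.affTangent p := by
  rintro w ⟨s', rfl⟩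
  obtain ⟨s, rfl⟩ := hpW
  rw [mem_affTangent_iff hp]
  intro d H hH
  have h := tangent_of_curve (fun i => Polynomial.C (pWL s i) +
    Polynomial.X * Polynomial.C (pWL s' i)) (by
      intro l d H hH
      have := killed_pW (s + l • s') d H hH
      have e : (fun i => (Polynomial.C (pWL s i) +
          Polynomial.X * Polynomial.C (pWL s' i)).eval l) = pW (s + l • s') := by
        have e1 : pW (s + l • s') = pWL s + l • pWL s' := by
          rw [← map_smul, ← map_add]; rfl
        rw [e1]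
        funext i
        simp only [Polynomial.eval_add, Polynomial.eval_C, Polynomial.eval_mul,
          Polynomial.eval_X, Pi.add_apply, Pi.smul_apply, smul_eq_mul]
      rwa [e]) d H hH
  have e1 : (fun i => (Polynomial.C (pWL s i) +
      Polynomial.X * Polynomial.C (pWL s' i)).eval 0) = pWL s := by
    funext i; simp
  have e2 : (fun i => (Polynomial.C (pWL s i) +
      Polynomial.X * Polynomial.C (pWL s' i)).derivative.eval 0) = pWL s' := by
    funext i; simp
  rwa [e1, e2] at h

theorem tauL_apply (y : Fin 20 → ℂ) : tauL y = tauv y := rfl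

/-- The four sections of the normal bundle. -/
noncomputable def sec : Fin 4 → ((Fin 20 → ℂ) →ₗ[ℂ] (Fin 20 → ℂ)) :=
  ![dR, dT, tauL.comp (dR.comp tauL), tauL.comp (dT.comp tauL)]

theorem sec_mem {p : Fin 20 → ℂ} (hp : XX.IsPoint p) (i : Fin 4) :
    sec i p ∈ XX.affTangent p := by
  have e2 : sec 2 p = tauv (dR (tauv p)) := by
    simp only [sec, Matrix.cons_val, LinearMap.comp_apply, tauL_apply]
  have e3 : sec 3 p = tauv (dT (tauv p)) := by
    simp only [sec, Matrix.cons_val, LinearMap.comp_apply, tauL_apply]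
  fin_cases i
  · exact dR_mem hp
  · exact dT_mem hp
  · change sec 2 p ∈ _
    rw [e2]; exact tdR_mem hp
  · change sec 3 p ∈ _
    rw [e3]; exact tdT_mem hp

theorem sec_indep (s : Fin 3 → ℂ) (hs : s ≠ 0) (c : Fin 4 → ℂ)
    (h : ∑ i, c i • sec i (pW s) ∈ WW) : c = 0 := by
  obtain ⟨s', hs'⟩ := h
  have h0 := congrFun hs' 0
  have h1 := congrFun hs' 1
  have h3 := congrFun hs' 3
  have h6 := congrFun hs' 6
  have h10 := congrFun hs' 10
  have h11 := congrFun hs' 11
  have h13 := congrFun hs' 13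
  have h16 := congrFun hs' 16
  simp [Fin.sum_univ_succ, sec, dR, dT, tauL, tauv, pW, pWL] at h0 h1 h3 h6 h10 h11 h13 h16
  have k : c 0 = 0 ∧ c 1 = 0 ∧ c 2 = 0 ∧ c 3 = 0 := by
    by_cases hs1 : s 1 = 0
    · by_cases hs0 : s 0 = 0
      · have hs2 : s 2 ≠ 0 := by
          intro hs2
          apply hs
          funext i
          fin_cases i
          · exact hs0
          · exact hs1
          · exact hs2
        rw [hs0] at h3 h11
        rw [hs1] at h1 h13
        refine ⟨?_, ?_, ?_, ?_⟩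
        · have : c 0 * s 2 = 0 := by linear_combination h13
          exact (mul_eq_zero.1 this).resolve_right hs2
        · have : c 1 * s 2 = 0 := by linear_combination h11
          exact (mul_eq_zero.1 this).resolve_right hs2
        · have : c 2 * s 2 = 0 := by linear_combination h1
          exact (mul_eq_zero.1 this).resolve_right hs2
        · have : c 3 * s 2 = 0 := by linear_combination h3
          exact (mul_eq_zero.1 this).resolve_right hs2
      · have c3 := h6.resolve_right hs0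
        have c1 := h10.resolve_right hs0
        rw [c3] at h3
        rw [c1] at h11
        refine ⟨?_, c1, ?_, c3⟩
        · have : c 0 * s 0 = 0 := by linear_combination h11
          exact (mul_eq_zero.1 this).resolve_right hs0
        · have : c 2 * s 0 = 0 := by linear_combination (-1) * h3
          exact (mul_eq_zero.1 this).resolve_right hs0
    · have c2 := h0.resolve_right hs1
      have c0 := h16.resolve_right hs1
      rw [c2] at h1
      rw [c0] at h13
      refine ⟨c0, ?_, c2, ?_⟩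
      · have : c 1 * s 1 = 0 := by linear_combination (-1) * h13
        exact (mul_eq_zero.1 this).resolve_right hs1
      · have : c 3 * s 1 = 0 := by linear_combination h1
        exact (mul_eq_zero.1 this).resolve_right hs1
  funext i
  fin_cases i
  · exact k.1
  · exact k.2.1
  · exact k.2.2.1
  · exact k.2.2.2

theorem normal_trivial : XX.HasTrivialNormalBundle 6 2 WW := by
  refine ⟨sec, ?_⟩
  intro p hpW hp0'
  have hp : XX.IsPoint p := linear_WW.2 p hpW hp0'
  obtain ⟨s, rfl⟩ := hpW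
  have hs : s ≠ 0 := by
    rintro rfl
    exact hp0' (map_zero _)
  have hind : LinearIndependent ℂ (fun i : Fin 4 => WW.mkQ (sec i (pWL s))) := by
    rw [Fintype.linearIndependent_iff]
    intro c hc i
    have h1 : ∑ i, c i • sec i (pW s) ∈ WW := by
      rw [← Submodule.Quotient.mk_eq_zero, ← Submodule.mkQ_apply, map_sum, ← hc]
      apply Finset.sum_congr rfl
      intro j _
      rw [map_smul]; rfl
    rw [sec_indep s hs c h1]; rfl
  have hle : Submodule.span ℂ (Set.range fun i : Fin 4 => WW.mkQ (sec i (pWL s))) ≤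
      (XX.affTangent (pWL s)).map WW.mkQ := by
    rw [Submodule.span_le]
    rintro w ⟨i, rfl⟩
    exact ⟨_, sec_mem hp i, rfl⟩
  have hfin : Module.finrank ℂ ((XX.affTangent (pWL s)).map WW.mkQ) ≤ 4 := by
    obtain ⟨M, M', x, t, hR, hM⟩ := exists_reach hp0'
    have h7 := finrank_affTangent hR.isChart hp hM
    have hW := WW_le ⟨s, rfl⟩ hp
    have h1 := LinearMap.finrank_range_add_finrank_ker
      (WW.mkQ.domRestrict (XX.affTangent (pWL s)))
    have h2 : LinearMap.range (WW.mkQ.domRestrict (XX.affTangent (pWL s))) =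
        (XX.affTangent (pWL s)).map WW.mkQ := LinearMap.range_domRestrict _ _
    have h3 : LinearMap.ker (WW.mkQ.domRestrict (XX.affTangent (pWL s))) =
        WW.comap (XX.affTangent (pWL s)).subtype := by
      ext v
      simp
    rw [h2, h3, h7, (Submodule.comapSubtypeEquivOfLe hW).finrank_eq, finrank_WW] at h1
    omega
  have heq : Module.finrank ℂ (Submodule.span ℂ
      (Set.range fun i : Fin 4 => WW.mkQ (sec i (pWL s)))) = 4 := by
    rw [finrank_span_eq_card hind]; simp
  have hfinal := Submodule.eq_of_le_of_finrank_le hle (by rw [heq]; exact hfin)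
  refine ⟨fun i => sec_mem hp i, ?_⟩
  intro u hu
  have h1 : WW.mkQ u ∈ Submodule.span ℂ (Set.range fun i : Fin 4 => WW.mkQ (sec i (pWL s))) := by
    rw [hfinal]
    exact ⟨u, hu, rfl⟩
  obtain ⟨c, hc⟩ := (Submodule.mem_span_range_iff_exists_fun ℂ).1 h1
  have key : ∀ c : Fin 4 → ℂ, u - ∑ i, c i • sec i (pWL s) ∈ WW ↔
      ∑ i, c i • WW.mkQ (sec i (pWL s)) = WW.mkQ u := by
    intro c
    rw [← Submodule.Quotient.mk_eq_zero, ← Submodule.mkQ_apply, map_sub, map_sum, sub_eq_zero]
    simp only [map_smul]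
    exact eq_comm
  refine ⟨c, (key c).2 hc, ?_⟩
  intro c' hc'
  have h2 := (key c').1 hc'
  have h3 : ∑ i, (c' i - c i) • WW.mkQ (sec i (pWL s)) = 0 := by
    simp only [sub_smul, Finset.sum_sub_distrib]
    rw [h2, hc, sub_self]
  have h4 := (Fintype.linearIndependent_iff.1 hind) _ h3
  funext i
  exact sub_eq_zero.1 (h4 i)

end Pool.Agent.Lib.MP_b7b3c1_ag
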