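import Pool.Agent.Lib.MP_b7b3c1_ag.PicFinal

set_option autoImplicit false

/-!
# The canonical divisor of `XX`
-/

namespace Pool.Agent.Lib.MP_b7b3c1_ag

open MvPolynomial

/-- The functions of six rational vector fields. -/
abbrev VV : Type := (Fin 6 → Derivation ℂ KK KK) → KK

/-- `d x_0 ∧ ... ∧ d x_5` -/
noncomputable def om (x : Fin 6 → KK) : VV :=
  fun θ => Matrix.det (fun i j => θ i (x j))

theorem D_aeval (x : Fin 6 → KK) (g : PP) : KaehlerDifferential.D ℂ KK (aeval x g) =
    ∑ j, aeval x (pderiv j g) • KaehlerDifferential.D ℂ KK (x j) := by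
  classical
  induction g using MvPolynomial.induction_on with
  | C a => simp
  | add f g hf hg =>
    rw [map_add, map_add, hf, hg, ← Finset.sum_add_distrib]
    apply Finset.sum_congr rfl
    intro i _
    rw [map_add, map_add, add_smul]
  | mul_X f i hf =>
    rw [map_mul, aeval_X, Derivation.leibniz, hf]
    have h1 : ∀ j, aeval x (pderiv j (f * X i)) • KaehlerDifferential.D ℂ KK (x j) =
        (if i = j then aeval x f • KaehlerDifferential.D ℂ KK (x j) else 0) +
          x i • (aeval x (pderiv j f) • KaehlerDifferential.D ℂ KK (x j)) := by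
      intro j
      rw [Derivation.leibniz, map_add, smul_eq_mul, smul_eq_mul, map_mul, map_mul, aeval_X,
        add_smul, mul_smul, mul_smul]
      by_cases hij : i = j
      · subst hij
        simp
      · rw [pderiv_X_of_ne hij]
        simp [hij]
    rw [Finset.sum_congr rfl (fun j _ => h1 j), Finset.sum_add_distrib, Finset.sum_ite_eq,
      Finset.smul_sum]
    simp

theorem D_frac (x : Fin 6 → KK) {k : KK} {g h : PP} (h0 : aeval x h ≠ 0)
    (hk : k * aeval x h = aeval x g) : KaehlerDifferential.D ℂ KK k =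
    ∑ j, ((aeval x (pderiv j g) - k * aeval x (pderiv j h)) * (aeval x h)⁻¹) •
      KaehlerDifferential.D ℂ KK (x j) := by
  have h1 := congrArg (KaehlerDifferential.D ℂ KK) hk
  rw [Derivation.leibniz, D_aeval, D_aeval] at h1
  have h2 : aeval x h • KaehlerDifferential.D ℂ KK k =
      ∑ j, (aeval x (pderiv j g) - k * aeval x (pderiv j h)) •
        KaehlerDifferential.D ℂ KK (x j) := by
    simp only [sub_smul, Finset.sum_sub_distrib, mul_smul]
    rw [← Finset.smul_sum, ← h1]
    abel
  have h3 := congrArg (fun w => (aeval x h)⁻¹ • w) h2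
  simp only [smul_smul, inv_mul_cancel₀ h0, one_smul, Finset.smul_sum] at h3
  rw [h3]
  apply Finset.sum_congr rfl
  intro j _
  rw [mul_comm]

/-- linear substitution in an alternating product -/
theorem om_of_jacobian {x x' : Fin 6 → KK} (J : Matrix (Fin 6) (Fin 6) KK)
    (h : ∀ i, KaehlerDifferential.D ℂ KK (x' i) =
      ∑ j, J i j • KaehlerDifferential.D ℂ KK (x j)) : om x' = J.det • om x := by
  funext θ
  have h1 : ∀ i j, θ i (x' j) = ∑ k, J j k * θ i (x k) := by
    intro i j
    have h2 := congrArg (θ i).liftKaehlerDifferential (h j)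
    rw [map_sum, Derivation.liftKaehlerDifferential_comp_D] at h2
    rw [h2]
    apply Finset.sum_congr rfl
    intro k _
    rw [map_smul, Derivation.liftKaehlerDifferential_comp_D, smul_eq_mul]
  have h2 : Matrix.of (fun i j => θ i (x' j)) =
      Matrix.of (fun i j => θ i (x j)) * J.transpose := by
    ext i j
    rw [Matrix.mul_apply, Matrix.of_apply, h1]
    apply Finset.sum_congr rfl
    intro k _
    rw [Matrix.transpose_apply, mul_comm, Matrix.of_apply]
  change Matrix.det (Matrix.of (fun i j => θ i (x' j))) =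
    J.det * Matrix.det (Matrix.of (fun i j => θ i (x j)))
  rw [h2, Matrix.det_mul, Matrix.det_transpose, mul_comm]

/-- The first form is nonzero. -/
theorem om_xi_ne_zero : om xi ≠ 0 := by
  let b : Module.Basis (Fin 6) KK (Ω[KK⁄ℂ]) :=
    (KaehlerDifferential.mvPolynomialBasis ℂ (Fin 6)).ofIsLocalizedModule KK
      (nonZeroDivisors PP) (KaehlerDifferential.map ℂ ℂ PP KK)
  have hb : ∀ i, b i = KaehlerDifferential.D ℂ KK (xi i) := by
    intro i
    simp only [b]
    rw [Module.Basis.ofIsLocalizedModule_apply, KaehlerDifferential.mvPolynomialBasis_apply,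
      KaehlerDifferential.map_D]
    rfl
  intro h0
  let θ : Fin 6 → Derivation ℂ KK KK := fun i => (b.coord i).compDer (KaehlerDifferential.D ℂ KK)
  have h1 : Matrix.of (fun i j => θ i (xi j)) = 1 := by
    ext i j
    rw [Matrix.of_apply]
    change b.coord i (KaehlerDifferential.D ℂ KK (xi j)) = _
    rw [← hb, Module.Basis.coord_apply, Module.Basis.repr_self, Finsupp.single_apply,
      Matrix.one_apply]
    by_cases h : i = j
    · rw [if_pos h, if_pos h.symm]
    · rw [if_neg h, if_neg (fun h' => h h'.symm)]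
  have h2 : om xi θ = 1 := by
    change Matrix.det (Matrix.of (fun i j => θ i (xi j))) = 1
    rw [h1, Matrix.det_one]
  rw [h0] at h2
  exact zero_ne_one h2

/-- The local ring, as a subalgebra of `KK`. -/
noncomputable def LL (p : Fin 20 → ℂ) : Subalgebra ℂ KK := XX.localRing p

/-- The stalk of the sheaf of 6-forms. -/
noncomputable def fS (p : Fin 20 → ℂ) : Submodule (LL p) VV :=
  Submodule.span (LL p) {w : VV | ∃ y : Fin 6 → KK, (∀ i, y i ∈ LL p) ∧ w = om y}

theorem mem_LL_iff {M M' : Matrix (Fin 20) (Fin 20) ℂ} {x : Fin 6 → KK} {t : KK}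
    (hC : IsChart M M' x t) {p : Fin 20 → ℂ} (hp : XX.IsPoint p)
    (h0 : act M p 0 ≠ 0) (k : KK) :
    k ∈ LL p ↔ ∃ g h : PP, aeval (prm M p) h ≠ 0 ∧ k * aeval x h = aeval x g :=
  hC.mem_localRing_iff hp h0 k

theorem fS_chart {M M' : Matrix (Fin 20) (Fin 20) ℂ} {x : Fin 6 → KK} {t : KK}
    (hC : IsChart M M' x t) {p : Fin 20 → ℂ} (hp : XX.IsPoint p) (h0 : act M p 0 ≠ 0) :
    fS p = Submodule.span (LL p) {om x} := by
  rw [fS]
  apply le_antisymm
  · rw [Submodule.span_le]
    rintro w ⟨y, hy, rfl⟩
    have hfr : ∀ i, ∃ c : Fin 6 → KK, (∀ j, c j ∈ LL p) ∧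
        KaehlerDifferential.D ℂ KK (y i) = ∑ j, c j • KaehlerDifferential.D ℂ KK (x j) := by
      intro i
      obtain ⟨g, h, h1, h2⟩ := (mem_LL_iff hC hp h0 (y i)).1 (hy i)
      have hne : aeval x h ≠ 0 := by
        apply hC.aeval_ne_zero
        rintro rfl
        rw [map_zero] at h1
        exact h1 rfl
      refine ⟨_, ?_, D_frac x hne h2⟩
      intro j
      rw [mem_LL_iff hC hp h0]
      refine ⟨pderiv j g * h - g * pderiv j h, h * h, ?_, ?_⟩
      · rw [map_mul]; exact mul_ne_zero h1 h1
      · rw [map_mul, map_sub, map_mul, map_mul, ← h2]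
        field_simp
    choose c hc hc' using hfr
    have h3 : om y = (Matrix.of c).det • om x := om_of_jacobian _ hc'
    rw [h3]
    have h4 : (Matrix.of c).det ∈ LL p := by
      rw [Matrix.det_apply]
      apply Subalgebra.sum_mem
      intro σ _
      rw [Units.smul_def]
      apply Subalgebra.zsmul_mem
      apply Subalgebra.prod_mem
      intro i _
      exact hc _ _
    have h5 : (Matrix.of c).det • om x =
        (⟨(Matrix.of c).det, h4⟩ : LL p) • om x := rfl
    rw [h5]
    exact Submodule.smul_mem _ _ (Submodule.mem_span_singleton_self _)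
  · rw [Submodule.span_le, Set.singleton_subset_iff]
    apply Submodule.subset_span
    refine ⟨x, ?_, rfl⟩
    intro i
    rw [mem_LL_iff hC hp h0]
    refine ⟨X i, 1, ?_, ?_⟩
    · rw [map_one]; exact one_ne_zero
    · rw [map_one, mul_one, aeval_X]

end Pool.Agent.Lib.MP_b7b3c1_ag
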