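import Pool.Agent.Lib.MP_b7b3c1_ag.UFD

set_option autoImplicit false

/-!
# The Picard group of `XX`
-/

namespace Pool.Agent.Lib.MP_b7b3c1_ag

open MvPolynomial

/-- The units of the local ring at `p`. -/
noncomputable def UU (p : Fin 20 → ℂ) : Subgroup KKˣ where
  carrier := {u | (u : KK) ∈ XX.localRing p ∧ ((u⁻¹ : KKˣ) : KK) ∈ XX.localRing p}
  mul_mem' := by
    rintro a b ⟨h1, h2⟩ ⟨h3, h4⟩
    refine ⟨?_, ?_⟩
    · rw [Units.val_mul]
      exact (XX.localRing p).mul_mem h1 h3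
    · rw [mul_inv, Units.val_mul]
      exact (XX.localRing p).mul_mem h2 h4
  one_mem' := by
    refine ⟨?_, ?_⟩
    · rw [Units.val_one]
      exact (XX.localRing p).one_mem
    · rw [inv_one, Units.val_one]
      exact (XX.localRing p).one_mem
  inv_mem' := by
    rintro a ⟨h1, h2⟩
    refine ⟨h2, ?_⟩
    rw [inv_inv]
    exact h1

theorem mem_UU (p : Fin 20 → ℂ) (u : KKˣ) :
    u ∈ UU p ↔ (u : KK) ∈ XX.localRing p ∧ ((u⁻¹ : KKˣ) : KK) ∈ XX.localRing p := Iff.rfl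

theorem unit_iff {M M' : Matrix (Fin 20) (Fin 20) ℂ} {x : Fin 6 → KK} {t : KK}
    (hC : IsChart M M' x t) {p : Fin 20 → ℂ} (hp : XX.IsPoint p) (h0 : act M p 0 ≠ 0)
    (u : KKˣ) : u ∈ UU p ↔ UnitAtParam x (prm M p) u := by
  rw [mem_UU, hC.mem_localRing_iff hp h0, hC.mem_localRing_iff hp h0]
  constructor
  · rintro ⟨⟨g, h, h1, h2⟩, g', h', h1', h2'⟩
    refine ⟨g, h, ?_, h1, h2⟩
    have e : g * g' = h * h' := by
      apply hC.injective
      rw [map_mul, map_mul, ← h2, ← h2']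
      calc (u : KK) * aeval x h * (((u⁻¹ : KKˣ) : KK) * aeval x h')
          = ((u : KK) * ((u⁻¹ : KKˣ) : KK)) * (aeval x h * aeval x h') := by ring
        _ = _ := by rw [Units.mul_inv, one_mul]
    intro hg
    have := congrArg (aeval (prm M p) : PP →ₐ[ℂ] ℂ) e
    rw [map_mul, hg, zero_mul, map_mul] at this
    exact (mul_ne_zero h1 h1') this.symm
  · intro hu
    have hu' := hu.inv
    obtain ⟨g, h, h1, h2, h3⟩ := hu
    obtain ⟨g', h', h1', h2', h3'⟩ := hu'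
    exact ⟨⟨g, h, h2, h3⟩, g', h', h2', h3'⟩

/-- ratios of linear forms not vanishing at a point are units there -/
theorem form_ne_zero {p : Fin 20 → ℂ} (hp : XX.IsPoint p) {d : ℕ}
    {L : MvPolynomial (Fin 20) ℂ} (hL : L.IsHomogeneous d) (h : aeval p L ≠ 0) :
    aeval zz L ≠ 0 := by
  intro h0
  rw [isPoint_XX] at hp
  exact h (hp.2 d L hL h0)

theorem ratio_mem {p : Fin 20 → ℂ} {d : ℕ}
    {L1 L2 : MvPolynomial (Fin 20) ℂ} (hL1 : L1.IsHomogeneous d) (hL2 : L2.IsHomogeneous d)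
    (h1 : aeval p L1 ≠ 0) (h2 : aeval p L2 ≠ 0) {u : KKˣ}
    (hu : (u : KK) * aeval zz L2 = aeval zz L1) : u ∈ UU p := by
  rw [mem_UU, mem_localRing_XX, mem_localRing_XX]
  refine ⟨⟨d, L1, L2, hL1, hL2, h2, hu⟩, d, L2, L1, hL2, hL1, h1, ?_⟩
  rw [← hu, ← mul_assoc, Units.inv_mul, one_mul]

theorem aeval_pcomp_X {R : Type} [CommRing R] [Algebra ℂ R]
    (M : Matrix (Fin 20) (Fin 20) ℂ) (y : Fin 20 → R) (j : Fin 20) :
    aeval y (pcomp M (X j)) = act M y j := by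
  rw [aeval_pcomp, aeval_X]

theorem IsChart.t_eq {M M' : Matrix (Fin 20) (Fin 20) ℂ} {x : Fin 6 → KK} {t : KK}
    (hC : IsChart M M' x t) : act M zz 0 = t := by
  rw [hC.eq]
  change t * cF x 0 = t
  rw [cF_zero, mul_one]

/-- constants are units -/
theorem const_mem {c : ℂ} {u : KKˣ} (hu : (u : KK) = algebraMap ℂ KK c)
    (p : Fin 20 → ℂ) : u ∈ UU p := by
  rw [mem_UU]
  refine ⟨?_, ?_⟩
  · rw [hu]; exact (XX.localRing p).algebraMap_mem c
  · rw [Units.val_inv_eq_inv_val, hu, ← map_inv₀]; exact (XX.localRing p).algebraMap_mem c⁻¹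

theorem ratio_mem' {p : Fin 20 → ℂ} {M N M' N' : Matrix (Fin 20) (Fin 20) ℂ}
    {x y : Fin 6 → KK} {t s : KK} (hM : IsChart M M' x t) (hN : IsChart N N' y s)
    (h1 : act M p 0 ≠ 0) (h2 : act N p 0 ≠ 0) {u : KKˣ} (hu : (u : KK) * s = t) :
    u ∈ UU p := by
  refine ratio_mem (d := 1) (L1 := pcomp M (X 0)) (L2 := pcomp N (X 0))
    (pcomp_homog M (isHomogeneous_X ℂ 0)) (pcomp_homog N (isHomogeneous_X ℂ 0)) ?_ ?_ ?_
  · rwa [aeval_pcomp_X]
  · rwa [aeval_pcomp_X]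
  · rw [aeval_pcomp_X, aeval_pcomp_X, hM.t_eq, hN.t_eq, hu]

/-- powers of the coordinate `x 4` are not units where it vanishes -/
theorem zpow_not_unit {M M' : Matrix (Fin 20) (Fin 20) ℂ} {x : Fin 6 → KK} {t : KK}
    (hC : IsChart M M' x t) {a : Fin 6 → ℂ} (ha : a 4 = 0) {u : KKˣ} {k : ℤ} {c : ℂ}
    (hc : c ≠ 0) (hu : (u : KK) = algebraMap ℂ KK c * x 4 ^ k) (h : UnitAtParam x a u) :
    k = 0 := by
  obtain ⟨g, h, h1, h2, h3⟩ := h
  have hx := hC.x_ne_zero 4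
  rcases lt_trichotomy k 0 with hk | hk | hk
  · exfalso
    obtain ⟨n, hn⟩ : ∃ n : ℕ, k = -((n : ℤ) + 1) := ⟨(-k - 1).toNat, by omega⟩
    have e : C c * h = g * X 4 ^ (n + 1) := by
      apply hC.injective
      rw [map_mul, map_mul, map_pow, aeval_X, ← h3, hu, aeval_C, hn, zpow_neg,
        show ((n : ℤ) + 1) = ((n + 1 : ℕ) : ℤ) by push_cast; ring, zpow_natCast]
      field_simp
    have := congrArg (aeval a : PP →ₐ[ℂ] ℂ) e
    rw [map_mul, map_mul, map_pow, aeval_X, ha, zero_pow (Nat.succ_ne_zero n), mul_zero,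
      aeval_C] at this
    exact (mul_ne_zero hc h2) this
  · exact hk
  · exfalso
    obtain ⟨n, hn⟩ : ∃ n : ℕ, k = (n : ℤ) + 1 := ⟨(k - 1).toNat, by omega⟩
    have e : C c * X 4 ^ (n + 1) * h = g := by
      apply hC.injective
      rw [map_mul, map_mul, map_pow, aeval_X, ← h3, hu, aeval_C, hn,
        show ((n : ℤ) + 1) = ((n + 1 : ℕ) : ℤ) by push_cast; ring, zpow_natCast]
    have := congrArg (aeval a : PP →ₐ[ℂ] ℂ) e
    rw [map_mul, map_mul, map_pow, aeval_X, ha, zero_pow (Nat.succ_ne_zero n), mul_zero,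
      zero_mul] at this
    exact h1 this.symm

/-- local equation of a divisor on a chart -/
def Rep (D : XX.Point → KKˣ) (M : Matrix (Fin 20) (Fin 20) ℂ) (g : KKˣ) : Prop :=
  ∀ q : XX.Point, act M q.1 0 ≠ 0 → D q / g ∈ UU q.1

theorem isCartier_XX (D : XX.Point → KKˣ) : XX.IsCartier D ↔
    ∀ p : XX.Point, ∃ (d : ℕ) (G : MvPolynomial (Fin 20) ℂ), G.IsHomogeneous d ∧
    aeval p.1 G ≠ 0 ∧ ∃ f : KKˣ, ∀ q : XX.Point, aeval q.1 G ≠ 0 → D q / f ∈ UU q.1 :=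
  Iff.rfl

section

variable {M M' : Matrix (Fin 20) (Fin 20) ℂ} {x : Fin 6 → KK} {t : KK}

/-- the point with given parameters -/
noncomputable def ptOf (hC : IsChart M M' x t) (a : Fin 6 → ℂ) : XX.Point :=
  ⟨act M' (cF a), hC.isPoint_param a⟩

theorem act_ptOf (hC : IsChart M M' x t) (a : Fin 6 → ℂ) : act M (ptOf hC a).1 = cF a :=
  hC.act1 _

theorem act_ptOf_ne (hC : IsChart M M' x t) (a : Fin 6 → ℂ) : act M (ptOf hC a).1 0 ≠ 0 := by
  rw [act_ptOf, cF_zero]; exact one_ne_zero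

theorem mem_UU_ptOf (hC : IsChart M M' x t) (a : Fin 6 → ℂ) (u : KKˣ) :
    u ∈ UU (ptOf hC a).1 ↔ UnitAtParam x a u := by
  rw [unit_iff hC (ptOf hC a).2 (act_ptOf_ne hC a)]
  have : prm M (ptOf hC a).1 = a := hC.prm_param a
  rw [this]

theorem exists_rep (hC : IsChart M M' x t) {D : XX.Point → KKˣ} (hD : XX.IsCartier D) :
    ∃ g, Rep D M g := by
  rw [isCartier_XX] at hD
  obtain ⟨g, hg⟩ := principal_of_local hC (fun a => D (ptOf hC a)) (by
    intro a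
    obtain ⟨d, G, hG, hGa, f, hf⟩ := hD (ptOf hC a)
    have key : ∀ b : Fin 6 → ℂ, aeval b (aeval (cF (X : Fin 6 → PP)) (pcomp M' G)) =
        aeval (ptOf hC b).1 G := by
      intro b
      rw [aeval_cF, aeval_pcomp]; rfl
    refine ⟨aeval (cF (X : Fin 6 → PP)) (pcomp M' G), f, ?_, ?_⟩
    · rw [key]; exact hGa
    · intro b hb
      rw [key] at hb
      exact (mem_UU_ptOf hC b _).1 (hf _ hb))
  refine ⟨g, ?_⟩
  intro q hq
  obtain ⟨d, G, hG, hGq, f, hf⟩ := hD q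
  have h1 := hf q hGq
  set b := prm M q.1 with hb
  have hqb : q.1 = fun i => act M q.1 0 * (ptOf hC b).1 i := by
    have h2 := hC.act_point q.2 hq
    have h3 : act M' (act M q.1) = fun i => act M q.1 0 * act M' (cF b) i := by
      conv_lhs => rw [h2]
      rw [act_smul]
    rw [hC.act2] at h3
    exact h3
  have hGb : aeval (ptOf hC b).1 G ≠ 0 := by
    intro h0
    apply hGq
    rw [hqb, aeval_smul_homog hG, h0, mul_zero]
  have h2 := (mem_UU_ptOf hC b _).1 (hf _ hGb)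
  have h3 := (unit_iff hC q.2 hq _).1 h1
  have h4 := hg b
  rw [unit_iff hC q.2 hq, ← hb]
  rw [← hb] at h3
  have h5 := (h3.mul h2.inv).mul h4
  have e : D q / f * (D (ptOf hC b) / f)⁻¹ * (D (ptOf hC b) / g) = D q / g := by
    rw [← div_eq_mul_inv, div_div_div_cancel_right, div_mul_div_cancel]
  rwa [e] at h5

theorem Rep.unique_up_to_const (hC : IsChart M M' x t) {D : XX.Point → KKˣ} {g g' : KKˣ}
    (h : Rep D M g) (h' : Rep D M g') :
    ∃ c : ℂ, c ≠ 0 ∧ ((g' / g : KKˣ) : KK) = algebraMap ℂ KK c := by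
  apply unit_const hC
  intro a
  rw [← mem_UU_ptOf hC]
  have h1 := h _ (act_ptOf_ne hC a)
  have h2 := h' _ (act_ptOf_ne hC a)
  have h3 := Subgroup.div_mem _ h1 h2
  rwa [div_div_div_cancel_left] at h3

end

end Pool.Agent.Lib.MP_b7b3c1_ag
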