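import Pool.Agent.Lib.MP_b7b3c1_ag.PicMain

set_option autoImplicit false

/-!
# The Picard group of `XX`: final statements
-/

namespace Pool.Agent.Lib.MP_b7b3c1_ag

open MvPolynomial

theorem exists_coord (q : XX.Point) : ∃ i, q.1 i ≠ 0 := by
  by_contra h
  push Not at h
  exact q.2.1 (funext h)

/-- a coordinate not vanishing at the point -/
noncomputable def ix (q : XX.Point) : Fin 20 := Classical.choose (exists_coord q)

theorem ix_spec (q : XX.Point) : q.1 (ix q) ≠ 0 := Classical.choose_spec (exists_coord q)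

theorem zz_ne_zero (q : XX.Point) {i : Fin 20} (h : q.1 i ≠ 0) : zz i ≠ 0 := by
  have := form_ne_zero q.2 (isHomogeneous_X ℂ i) (by rwa [aeval_X])
  rwa [aeval_X] at this

/-- The hyperplane section `z 0 = 0`. -/
noncomputable def HH (q : XX.Point) : KKˣ :=
  Units.mk0 (zz (ix q))⁻¹ (inv_ne_zero (zz_ne_zero q (ix_spec q)))

theorem HH_val (q : XX.Point) : ((HH q : KKˣ) : KK) = (zz (ix q))⁻¹ := rfl

theorem zz_zero : zz 0 = 1 := rfl

theorem coord_ratio_mem (q : XX.Point) {i j : Fin 20} (hi : q.1 i ≠ 0) (hj : q.1 j ≠ 0)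
    {u : KKˣ} (hu : (u : KK) * zz j = zz i) : u ∈ UU q.1 := by
  refine ratio_mem (d := 1) (isHomogeneous_X ℂ i) (isHomogeneous_X ℂ j) ?_ ?_ ?_
  · rwa [aeval_X]
  · rwa [aeval_X]
  · rwa [aeval_X, aeval_X]

theorem HH_isHyperplaneSection : XX.IsHyperplaneSection HH := by
  refine ⟨X 0, isHomogeneous_X ℂ 0, ?_, ?_⟩
  · rw [aeval_X]
    exact (one_ne_zero : (1 : KK) ≠ 0)
  · intro q i hi
    have hz := zz_ne_zero q (ix_spec q)
    have hzi := zz_ne_zero q hi
    refine ⟨Units.mk0 (zz i / zz (ix q)) (div_ne_zero hzi hz), ?_, ?_⟩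
    · refine coord_ratio_mem q hi (ix_spec q) ?_
      exact div_mul_cancel₀ _ hz
    · rw [aeval_X]
      change (zz (ix q))⁻¹ * zz i = zz i / zz (ix q) * 1
      rw [mul_one, div_eq_inv_mul]

theorem HH_isCartier : XX.IsCartier HH := by
  intro p
  refine ⟨1, X (ix p), isHomogeneous_X ℂ _, ?_, HH p, ?_⟩
  · rw [aeval_X]; exact ix_spec p
  · intro q hq
    rw [aeval_X] at hq
    refine coord_ratio_mem q (i := ix p) (j := ix q) hq (ix_spec q) ?_
    have hz := zz_ne_zero q (ix_spec q)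
    have hz' := zz_ne_zero q hq
    change ((HH q / HH p : KKˣ) : KK) * zz (ix q) = zz (ix p)
    rw [Units.val_div_eq_div_val, HH_val, HH_val]
    field_simp

/-- the local equation of the hyperplane in a chart -/
theorem HH_tu {M M' : Matrix (Fin 20) (Fin 20) ℂ} {x : Fin 6 → KK} {t : KK}
    (hC : IsChart M M' x t) (q : XX.Point) (hq : act M q.1 0 ≠ 0) :
    HH q * tu hC ∈ UU q.1 := by
  refine ratio_mem (d := 1) (L1 := pcomp M (X 0)) (L2 := X (ix q))
    (pcomp_homog M (isHomogeneous_X ℂ 0)) (isHomogeneous_X ℂ _) ?_ ?_ ?_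
  · rw [aeval_pcomp_X]; exact hq
  · rw [aeval_X]; exact ix_spec q
  · rw [aeval_X, aeval_pcomp_X, hC.t_eq, Units.val_mul, HH_val]
    have hz := zz_ne_zero q (ix_spec q)
    change (zz (ix q))⁻¹ * t * zz (ix q) = t
    field_simp

theorem isPrincipal_XX (D : XX.Point → KKˣ) : XX.IsPrincipal D ↔
    ∃ g : KKˣ, ∀ q : XX.Point, D q / g ∈ UU q.1 := Iff.rfl

theorem HH_generates {D : XX.Point → KKˣ} (hD : XX.IsCartier D) :
    ∃ m : ℤ, XX.IsPrincipal (fun q => D q / HH q ^ m) := by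
  obtain ⟨g₀, k, h⟩ := main_induction hD
  refine ⟨k, ?_⟩
  rw [isPrincipal_XX]
  refine ⟨g₀, ?_⟩
  intro q
  obtain ⟨M, M', x, t, hR, hq⟩ := exists_reach q.2.1
  obtain ⟨g, g', c, c', h1, h2, h3, h4⟩ := h hR
  have e1 := h1 q hq
  have e2 := Subgroup.zpow_mem _ (HH_tu hR.isChart q hq) k
  have e3 := cu_mem c' q.1
  have e4 := Subgroup.mul_mem _ (Subgroup.div_mem _ e1 e2) e3
  have e5 : D q / g / (HH q * tu hR.isChart) ^ k * cu c' = D q / HH q ^ k / g₀ := by
    have e6 : g = cu c' * g₀ / tu hR.isChart ^ k := by rw [← h4, mul_div_cancel_right]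
    rw [e6, mul_zpow]
    generalize HH q ^ k = a
    generalize tu hR.isChart ^ k = b
    generalize cu c' = d
    generalize D q = e
    simp only [div_eq_mul_inv, mul_inv, inv_inv]
    calc e * (d⁻¹ * g₀⁻¹ * b) * (a⁻¹ * b⁻¹) * d
        = (d⁻¹ * d) * (b * b⁻¹) * (e * a⁻¹ * g₀⁻¹) := by
          simp only [mul_assoc, mul_comm, mul_left_comm]
      _ = _ := by rw [inv_mul_cancel, mul_inv_cancel, one_mul, one_mul]
  rwa [e5] at e4

theorem HH_no_torsion {k : ℤ} (h : XX.IsPrincipal (fun q => HH q ^ k)) : k = 0 := by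
  rw [isPrincipal_XX] at h
  obtain ⟨g, hg⟩ := h
  have hC0 := IsChart.one
  have hC1 := IsChart.one.tau
  have htu0 : tu hC0 = 1 := Units.ext rfl
  obtain ⟨c, hc, hc'⟩ := unit_const hC0 (u := g) (by
    intro a
    rw [← mem_UU_ptOf hC0]
    have h1 := HH_tu hC0 (ptOf hC0 a) (act_ptOf_ne hC0 a)
    rw [htu0, mul_one] at h1
    have h2 := hg (ptOf hC0 a)
    have h3 := Subgroup.div_mem _ (Subgroup.zpow_mem _ h1 k) h2
    rwa [div_div_self'] at h3)
  have e1 := HH_tu hC1 (ptOf hC1 0) (act_ptOf_ne hC1 0)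
  have e2 := hg (ptOf hC1 0)
  have e3 := const_mem hc' (ptOf hC1 0).1
  -- HH^k is a unit
  have e4 := Subgroup.mul_mem _ e2 e3
  rw [div_mul_cancel] at e4
  have e5 := Subgroup.div_mem _ (Subgroup.zpow_mem _ e1 k) e4
  rw [mul_zpow, mul_div_cancel_left] at e5
  rw [mem_UU_ptOf hC1] at e5
  have h4 : ((tu hC1 ^ k : KKˣ) : KK) =
      algebraMap ℂ KK ((-1) ^ k) * rtau xi 4 ^ (-k) := by
    rw [Units.val_zpow_eq_zpow_val]
    change (1 * -xi 4) ^ k = algebraMap ℂ KK ((-1) ^ k) * ((xi 4)⁻¹) ^ (-k)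
    rw [inv_zpow', neg_neg, one_mul, map_zpow₀, map_neg, map_one, ← mul_zpow, neg_one_mul]
  have h5 := zpow_not_unit hC1 (a := 0) rfl (zpow_ne_zero k (neg_ne_zero.2 one_ne_zero)) h4 e5
  omega

theorem HH_unique {D : XX.Point → KKˣ} {m m' : ℤ}
    (h : XX.IsPrincipal (fun q => D q / HH q ^ m))
    (h' : XX.IsPrincipal (fun q => D q / HH q ^ m')) : m = m' := by
  have h1 : XX.IsPrincipal (fun q => HH q ^ (m' - m)) := by
    rw [isPrincipal_XX] at *
    obtain ⟨g, hg⟩ := h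
    obtain ⟨g', hg'⟩ := h'
    refine ⟨g / g', ?_⟩
    intro q
    have e := Subgroup.div_mem _ (hg q) (hg' q)
    have e1 : D q / HH q ^ m / g / (D q / HH q ^ m' / g') = HH q ^ (m' - m) / (g / g') := by
      rw [zpow_sub]
      generalize HH q ^ m = a
      generalize HH q ^ m' = b
      generalize D q = d
      simp only [div_eq_mul_inv, mul_inv, inv_inv]
      calc d * a⁻¹ * g⁻¹ * (d⁻¹ * b * g') = (d * d⁻¹) * (b * a⁻¹ * (g⁻¹ * g')) := by
            simp only [mul_assoc, mul_comm, mul_left_comm]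
        _ = _ := by rw [mul_inv_cancel, one_mul]
    rwa [e1] at e
  have := HH_no_torsion h1
  omega

end Pool.Agent.Lib.MP_b7b3c1_ag
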