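import Pool.Agent.Lib.MP_b7b3c1_ag.Pic

set_option autoImplicit false

/-!
# The Picard group of `XX` is generated by the hyperplane class
-/

namespace Pool.Agent.Lib.MP_b7b3c1_ag

open MvPolynomial

/-- The unit of the function field given by a coordinate of a chart. -/
noncomputable def x4u {M M' : Matrix (Fin 20) (Fin 20) ℂ} {x : Fin 6 → KK} {t : KK}
    (hC : IsChart M M' x t) : KKˣ := Units.mk0 (x 4) (hC.x_ne_zero 4)

/-- The scaling factor of a chart as a unit. -/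
noncomputable def tu {M M' : Matrix (Fin 20) (Fin 20) ℂ} {x : Fin 6 → KK} {t : KK}
    (hC : IsChart M M' x t) : KKˣ := Units.mk0 t hC.t_ne

/-- A constant as a unit. -/
noncomputable def cu (c : ℂˣ) : KKˣ := Units.map (algebraMap ℂ KK).toMonoidHom c

theorem cu_val (c : ℂˣ) : ((cu c : KKˣ) : KK) = algebraMap ℂ KK (c : ℂ) := rfl

theorem cu_mem (c : ℂˣ) (p : Fin 20 → ℂ) : cu c ∈ UU p := const_mem (cu_val c) p

theorem eq_cu {u : KKˣ} {c : ℂ} (hc : c ≠ 0) (h : (u : KK) = algebraMap ℂ KK c) :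
    u = cu (Units.mk0 c hc) := Units.ext h

theorem cF_zero_apply : (cF (0 : Fin 6 → ℂ)) = Pi.single 0 1 := by
  funext j
  fin_cases j <;> simp [cF]

theorem act_Mtau_cF_zero : act Mtau (cF (0 : Fin 6 → ℂ)) = Pi.single 16 1 := by
  rw [cF_zero_apply, act_Mtau]
  funext j
  fin_cases j <;> simp

/-- Existence of exponents: comparison between a chart and its `tau` neighbour. -/
theorem exists_exponent {M M' : Matrix (Fin 20) (Fin 20) ℂ} {x : Fin 6 → KK} {t : KK}
    (hC : IsChart M M' x t) {D : XX.Point → KKˣ} {g g' : KKˣ} (h : Rep D M g)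
    (h' : Rep D (Mtau * M) g') : ∃ (c : ℂˣ) (k : ℤ), g = cu c * x4u hC ^ k * g' := by
  obtain ⟨c, k, hc, hk⟩ := unit_zpow hC (u := g / g') (by
    intro a ha
    rw [← mem_UU_ptOf hC]
    have h1 := h _ (act_ptOf_ne hC a)
    have h2 := h' (ptOf hC a) (by
      rw [act_mul, act_ptOf, act_Mtau]
      change cF a 16 ≠ 0
      simpa [cF] using ha)
    have h3 := Subgroup.div_mem _ h2 h1
    rwa [div_div_div_cancel_left] at h3)
  refine ⟨Units.mk0 c hc, k, ?_⟩
  have : g / g' = cu (Units.mk0 c hc) * x4u hC ^ k := by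
    apply Units.ext
    rw [hk, Units.val_mul, Units.val_zpow_eq_zpow_val]; rfl
  rw [← this, div_mul_cancel]

/-- The invariance of the exponent under a move `B` preserving coordinate 0. -/
theorem exponent_eq {M M' B B' : Matrix (Fin 20) (Fin 20) ℂ} {x x' : Fin 6 → KK} {t : KK}
    (hC : IsChart M M' x t) (hC' : IsChart (B * M) (M' * B') x' t)
    (hB16 : act B (Pi.single 16 1 : Fin 20 → ℂ) 16 = 1)
    {D : XX.Point → KKˣ} {g g' g'' : KKˣ}
    (h' : Rep D (Mtau * M) g') (h'' : Rep D (Mtau * (B * M)) g'') {c c'' : ℂˣ} {k k'' : ℤ}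
    (hk : g = cu c * x4u hC ^ k * g') (hk'' : g = cu c'' * x4u hC' ^ k'' * g'') :
    k'' = k := by
  have hC1 := hC.tau
  have hC2 := hC'.tau
  set q := ptOf hC1 0 with hq
  have hMq : act M q.1 = Pi.single 16 1 := by
    have h1 : act (Mtau * M) q.1 = cF 0 := act_ptOf hC1 0
    rw [act_mul] at h1
    have h2 := congrArg (act Mtau) h1
    rwa [← act_mul, Mtau_Mtau, act_one, act_Mtau_cF_zero] at h2
  have hq1 : act (Mtau * M) q.1 0 ≠ 0 := act_ptOf_ne hC1 0
  have hq2 : act (Mtau * (B * M)) q.1 0 ≠ 0 := by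
    rw [act_mul, act_mul, hMq, act_Mtau]
    change act B (Pi.single 16 1 : Fin 20 → ℂ) 16 ≠ 0
    rw [hB16]; exact one_ne_zero
  have m1 := Subgroup.div_mem _ (h'' q hq2) (h' q hq1)
  rw [div_div_div_cancel_left] at m1
  -- m1 : g' / g'' ∈ UU q
  have m2 : x4u hC' / x4u hC ∈ UU q.1 := by
    refine ratio_mem' hC2 hC1 hq2 hq1 ?_
    rw [Units.val_div_eq_div_val]
    change x' 4 / x 4 * (t * -x 4) = t * -x' 4
    have := hC.x_ne_zero 4
    field_simp
  have m3 := Subgroup.mul_mem _ (Subgroup.mul_mem _ m1 (Subgroup.zpow_mem _ m2 (-k'')))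
    (cu_mem (c * c''⁻¹) q.1)
  have e0 : cu c * x4u hC ^ k * g' = cu c'' * x4u hC' ^ k'' * g'' := by rw [← hk, ← hk'']
  have e1 : g' / g'' = cu (c'' * c⁻¹) * x4u hC' ^ k'' * x4u hC ^ (-k) := by
    rw [div_eq_iff_eq_mul]
    have e2 : g' = (cu c * x4u hC ^ k)⁻¹ * (cu c'' * x4u hC' ^ k'' * g'') := by
      rw [← e0, inv_mul_cancel_left]
    rw [e2]
    have e3 : cu (c'' * c⁻¹) = cu c'' * (cu c)⁻¹ := by
      unfold cu; rw [map_mul, map_inv]
    rw [e3, mul_inv, zpow_neg]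
    simp only [mul_assoc, mul_comm, mul_left_comm]
  have e4 : g' / g'' * (x4u hC' / x4u hC) ^ (-k'') * cu (c * c''⁻¹) =
      x4u hC ^ (k'' - k) := by
    have e5 : cu (c * c''⁻¹) = (cu (c'' * c⁻¹))⁻¹ := by
      unfold cu
      rw [map_mul, map_mul, map_inv, map_inv, mul_inv, inv_inv, mul_comm]
    rw [e1, e5, div_zpow, zpow_sub, zpow_neg, zpow_neg, zpow_neg, div_eq_mul_inv, inv_inv]
    have : ∀ a b c d : KKˣ, a * b * c⁻¹ * (b⁻¹ * d) * a⁻¹ = d * c⁻¹ := by
      intro a b c d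
      calc a * b * c⁻¹ * (b⁻¹ * d) * a⁻¹ = (a * a⁻¹) * (b * b⁻¹) * (d * c⁻¹) := by
            simp only [mul_assoc, mul_comm, mul_left_comm]
        _ = d * c⁻¹ := by rw [mul_inv_cancel, mul_inv_cancel, one_mul, one_mul]
    exact this _ _ _ _
  rw [e4, mem_UU_ptOf hC1] at m3
  have h4 : ((x4u hC ^ (k'' - k) : KKˣ) : KK) =
      algebraMap ℂ KK 1 * rtau x 4 ^ (-(k'' - k)) := by
    rw [map_one, one_mul, Units.val_zpow_eq_zpow_val]
    change x 4 ^ (k'' - k) = ((x 4)⁻¹) ^ (-(k'' - k))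
    rw [inv_zpow', neg_neg]
  have h5 := zpow_not_unit hC1 (a := 0) rfl one_ne_zero h4 m3
  omega

/-- The invariant of a Cartier divisor along the reachable charts. -/
theorem main_induction {D : XX.Point → KKˣ} (hD : XX.IsCartier D) :
    ∃ (g₀ : KKˣ) (k : ℤ), ∀ {M M' : Matrix (Fin 20) (Fin 20) ℂ} {x : Fin 6 → KK} {t : KK}
      (hR : Reach M M' x t), ∃ (g g' : KKˣ) (c c' : ℂˣ), Rep D M g ∧ Rep D (Mtau * M) g' ∧
        g = cu c * x4u hR.isChart ^ k * g' ∧ g * tu hR.isChart ^ k = cu c' * g₀ := by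
  obtain ⟨g₀, hg₀⟩ := exists_rep IsChart.one hD
  obtain ⟨g₁, hg₁⟩ := exists_rep IsChart.one.tau hD
  obtain ⟨c₀, k, hk⟩ := exists_exponent IsChart.one hg₀ hg₁
  refine ⟨g₀, k, ?_⟩
  -- generic step
  have step : ∀ {M M' B B' : Matrix (Fin 20) (Fin 20) ℂ} {x x' : Fin 6 → KK} {t : KK}
      (hC : IsChart M M' x t) (hC' : IsChart (B * M) (M' * B') x' t)
      (_ : ∀ y : Fin 20 → ℂ, act B y 0 = y 0)
      (_ : act B (Pi.single 16 1 : Fin 20 → ℂ) 16 = 1),
      (∃ (g g' : KKˣ) (c c' : ℂˣ), Rep D M g ∧ Rep D (Mtau * M) g' ∧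
        g = cu c * x4u hC ^ k * g' ∧ g * tu hC ^ k = cu c' * g₀) →
      (∃ (g g' : KKˣ) (c c' : ℂˣ), Rep D (B * M) g ∧ Rep D (Mtau * (B * M)) g' ∧
        g = cu c * x4u hC' ^ k * g' ∧ g * tu hC' ^ k = cu c' * g₀) := by
    intro M M' B B' x x' t hC hC' hB0 hB16
    rintro ⟨g, g', c, c', h1, h2, h3, h4⟩
    have h1' : Rep D (B * M) g := by
      intro q hq
      rw [act_mul, hB0] at hq
      exact h1 q hq
    obtain ⟨g'', hg''⟩ := exists_rep hC'.tau hD
    obtain ⟨c'', k'', hk''⟩ := exists_exponent hC' h1' hg''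
    have := exponent_eq hC hC' hB16 h2 hg'' h3 hk''
    subst this
    exact ⟨g, g'', c'', c', h1', hg'', hk'', h4⟩
  intro M M' x t hR
  induction hR with
  | one =>
    refine ⟨g₀, g₁, c₀, 1, hg₀, hg₁, hk, ?_⟩
    have h1 : tu (Reach.one).isChart = 1 := Units.ext rfl
    have h2 : cu 1 = 1 := by unfold cu; rw [map_one]
    rw [h1, one_zpow, mul_one, h2, one_mul]
  | R l hR ih =>
    refine step hR.isChart (hR.R l).isChart ?_ ?_ ih
    · intro y; rw [act_MR]; rfl
    · rw [act_MR]; simp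
  | T l hR ih =>
    refine step hR.isChart (hR.T l).isChart ?_ ?_ ih
    · intro y; rw [act_MT]; rfl
    · rw [act_MT]; simp
  | @tau M M' x t hR ih =>
    obtain ⟨g, g', c, c', h1, h2, h3, h4⟩ := ih
    have hMM : Mtau * (Mtau * M) = M := by
      rw [← Matrix.mul_assoc, Mtau_Mtau, Matrix.one_mul]
    have hx4 : x4u hR.tau.isChart = (x4u hR.isChart)⁻¹ := by
      apply Units.ext
      rw [Units.val_inv_eq_inv_val]; rfl
    have ht : tu hR.tau.isChart = tu hR.isChart * (cu (-1) * x4u hR.isChart) := by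
      apply Units.ext
      rw [Units.val_mul, Units.val_mul, cu_val]
      change t * -x 4 = t * (algebraMap ℂ KK (((-1 : ℂˣ) : ℂ)) * x 4)
      rw [Units.val_neg, Units.val_one, map_neg, map_one, neg_one_mul]
    refine ⟨g', g, c⁻¹, (-1) ^ k * (c⁻¹ * c'), h2, ?_, ?_, ?_⟩
    · rw [hMM]; exact h1
    · rw [hx4, h3]
      have : cu c⁻¹ = (cu c)⁻¹ := by unfold cu; rw [map_inv]
      rw [this, inv_zpow]
      have e : ∀ a b d : KKˣ, a⁻¹ * b⁻¹ * (a * b * d) = d := by
        intro a b d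
        calc a⁻¹ * b⁻¹ * (a * b * d) = (a⁻¹ * a) * (b⁻¹ * b) * d := by
              simp only [mul_assoc, mul_comm, mul_left_comm]
          _ = d := by rw [inv_mul_cancel, inv_mul_cancel, one_mul, one_mul]
      exact (e _ _ _).symm
    · rw [ht, mul_zpow, mul_zpow]
      have e1 : cu ((-1) ^ k * (c⁻¹ * c')) = cu (-1) ^ k * ((cu c)⁻¹ * cu c') := by
        unfold cu; rw [map_mul, map_mul, map_inv, map_zpow]
      have e2 : g' * x4u hR.isChart ^ k = (cu c)⁻¹ * g := by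
        rw [h3]
        calc g' * x4u hR.isChart ^ k = (cu c)⁻¹ * cu c * (x4u hR.isChart ^ k * g') := by
              rw [inv_mul_cancel, one_mul, mul_comm]
          _ = _ := by simp only [mul_assoc]
      calc g' * (tu hR.isChart ^ k * (cu (-1) ^ k * x4u hR.isChart ^ k))
          = cu (-1) ^ k * tu hR.isChart ^ k * (g' * x4u hR.isChart ^ k) := by
            simp only [mul_assoc, mul_comm, mul_left_comm]
        _ = cu (-1) ^ k * (cu c)⁻¹ * (g * tu hR.isChart ^ k) := by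
            rw [e2]; simp only [mul_assoc, mul_comm, mul_left_comm]
        _ = _ := by rw [h4, e1]; simp only [mul_assoc]

end Pool.Agent.Lib.MP_b7b3c1_ag
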