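import Pool.Agent.Lib.MP_b7b3c1_ag.Smooth

set_option autoImplicit false

/-!
# Reachable charts cover everything
-/

namespace Pool.Agent.Lib.MP_b7b3c1_ag

open MvPolynomial

theorem matrix_eq_one_of_act {m : ℕ} (M : Matrix (Fin m) (Fin m) ℂ)
    (h : ∀ y : Fin m → ℂ, act M y = y) : M = 1 := by
  ext i j
  have h1 := congrFun (h (Pi.single j 1)) i
  rw [act_apply, Finset.sum_eq_single j] at h1
  · rw [Pi.single_eq_same, smul_eq_mul, mul_one] at h1
    rw [h1, Matrix.one_apply, Pi.single_apply]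
  · intro k _ hk
    rw [Pi.single_eq_of_ne hk, smul_zero]
  · intro h; exact absurd (Finset.mem_univ j) h

theorem MR_neg (l : ℂ) : MR l * MR (-l) = 1 := by
  apply matrix_eq_one_of_act
  intro y
  rw [act_mul, act_MR, act_MR]
  funext j
  fin_cases j <;> simp <;> ring

theorem MT_neg (l : ℂ) : MT l * MT (-l) = 1 := by
  apply matrix_eq_one_of_act
  intro y
  rw [act_mul, act_MT, act_MT]
  funext j
  fin_cases j <;> simp <;> ring

theorem Mtau_Mtau : Mtau * Mtau = 1 := by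
  apply matrix_eq_one_of_act
  intro y
  rw [act_mul, act_Mtau, act_Mtau]
  funext j
  fin_cases j <;> simp

theorem MR_neg' (l : ℂ) : MR (-l) * MR l = 1 := by
  have := MR_neg (-l); rwa [neg_neg] at this

theorem MT_neg' (l : ℂ) : MT (-l) * MT l = 1 := by
  have := MT_neg (-l); rwa [neg_neg] at this

/-- The charts obtained from the first one by the elementary moves. -/
inductive Reach : Matrix (Fin 20) (Fin 20) ℂ → Matrix (Fin 20) (Fin 20) ℂ → (Fin 6 → KK) →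
    KK → Prop
  | one : Reach 1 1 xi 1
  | R (l : ℂ) {M M' : Matrix (Fin 20) (Fin 20) ℂ} {x : Fin 6 → KK} {t : KK} :
      Reach M M' x t → Reach (MR l * M) (M' * MR (-l)) (rR l x) t
  | T (l : ℂ) {M M' : Matrix (Fin 20) (Fin 20) ℂ} {x : Fin 6 → KK} {t : KK} :
      Reach M M' x t → Reach (MT l * M) (M' * MT (-l)) (rT l x) t
  | tau {M M' : Matrix (Fin 20) (Fin 20) ℂ} {x : Fin 6 → KK} {t : KK} :
      Reach M M' x t → Reach (Mtau * M) (M' * Mtau) (rtau x) (t * (-x 4))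

theorem mul_inv_aux {A B M M' : Matrix (Fin 20) (Fin 20) ℂ} (h1 : M * M' = 1) (h2 : A * B = 1) :
    A * M * (M' * B) = 1 := by
  rw [Matrix.mul_assoc, ← Matrix.mul_assoc M, h1, Matrix.one_mul, h2]

theorem IsChart.R {M M' : Matrix (Fin 20) (Fin 20) ℂ} {x : Fin 6 → KK} {t : KK}
    (hC : IsChart M M' x t) (l : ℂ) : IsChart (MR l * M) (M' * MR (-l)) (rR l x) t where
  inv1 := mul_inv_aux hC.inv1 (MR_neg l)
  inv2 := mul_inv_aux (MR_neg' l) hC.inv2
  t_ne := hC.t_ne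
  eq := by rw [act_mul, hC.eq, act_smul, act_MR_cF]

theorem IsChart.T {M M' : Matrix (Fin 20) (Fin 20) ℂ} {x : Fin 6 → KK} {t : KK}
    (hC : IsChart M M' x t) (l : ℂ) : IsChart (MT l * M) (M' * MT (-l)) (rT l x) t where
  inv1 := mul_inv_aux hC.inv1 (MT_neg l)
  inv2 := mul_inv_aux (MT_neg' l) hC.inv2
  t_ne := hC.t_ne
  eq := by rw [act_mul, hC.eq, act_smul, act_MT_cF]

theorem IsChart.tau {M M' : Matrix (Fin 20) (Fin 20) ℂ} {x : Fin 6 → KK} {t : KK}
    (hC : IsChart M M' x t) : IsChart (Mtau * M) (M' * Mtau) (rtau x) (t * (-x 4)) where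
  inv1 := mul_inv_aux hC.inv1 Mtau_Mtau
  inv2 := mul_inv_aux Mtau_Mtau hC.inv2
  t_ne := mul_ne_zero hC.t_ne (neg_ne_zero.2 (hC.x_ne_zero 4))
  eq := by
    rw [act_mul, hC.eq, act_smul, act_Mtau_cF x (hC.x_ne_zero 4)]
    funext j
    ring

theorem IsChart.one : IsChart 1 1 xi 1 where
  inv1 := Matrix.mul_one 1
  inv2 := Matrix.mul_one 1
  t_ne := one_ne_zero
  eq := by
    rw [act_one]
    funext j
    rw [one_mul]; rfl

theorem Reach.isChart {M M' : Matrix (Fin 20) (Fin 20) ℂ} {x : Fin 6 → KK} {t : KK}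
    (h : Reach M M' x t) : IsChart M M' x t := by
  induction h with
  | one => exact IsChart.one
  | R l _ ih => exact ih.R l
  | T l _ ih => exact ih.T l
  | tau _ ih => exact ih.tau

theorem exists_reach {p : Fin 20 → ℂ} (hp : p ≠ 0) :
    ∃ M M' x t, Reach M M' x t ∧ act M p 0 ≠ 0 := by
  by_contra hcon
  push Not at hcon
  let Z : Set (Fin 20 → ℂ) := {q | ∃ M M' x t, Reach M M' x t ∧ q = act M p}
  have z0 : ∀ q ∈ Z, q 0 = 0 := by
    rintro q ⟨M, M', x, t, hM, rfl⟩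
    exact hcon M M' x t hM
  have zR : ∀ q ∈ Z, ∀ l, act (MR l) q ∈ Z := by
    rintro q ⟨M, M', x, t, hM, rfl⟩ l
    exact ⟨_, _, _, _, hM.R l, by rw [act_mul]⟩
  have zt : ∀ q ∈ Z, act Mtau q ∈ Z := by
    rintro q ⟨M, M', x, t, hM, rfl⟩
    exact ⟨_, _, _, _, hM.tau, by rw [act_mul]⟩
  have h16 : ∀ q ∈ Z, q 16 = 0 := by
    intro q hq
    have := z0 _ (zt q hq)
    rw [act_Mtau] at this
    simpa using this
  have h17 : ∀ q ∈ Z, q 17 = 0 ∧ q 18 = 0 ∧ q 19 = 0 := by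
    intro q hq
    have e : ∀ l : ℂ, q 16 - l * q 17 + l ^ 2 * q 18 - l ^ 3 * q 19 = 0 := by
      intro l
      have := h16 _ (zR q hq l)
      rw [act_MR] at this
      simpa using this
    have e0 := h16 q hq
    have e1 := e 1
    have e2 := e (-1)
    have e3 := e 2
    refine ⟨?_, ?_, ?_⟩
    · linear_combination (-1) * e1 + (1 / 3) * e2 + (1 / 6) * e3 + (1 / 2) * e0
    · linear_combination (1 / 2) * e1 + (1 / 2) * e2 - e0
    · linear_combination (1 / 2) * e1 + (1 / 6) * e2 - (1 / 6) * e3 - (1 / 2) * e0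
  have hn : ∀ q ∈ Z, q 2 = 0 ∧ q 5 = 0 ∧ q 9 = 0 := by
    intro q hq
    have := h17 _ (zt q hq)
    rw [act_Mtau] at this
    simpa using this
  have hall : ∀ q ∈ Z, q 1 = 0 ∧ q 3 = 0 ∧ q 4 = 0 ∧ q 6 = 0 ∧ q 7 = 0 ∧ q 8 = 0 := by
    intro q hq
    have e : ∀ l : ℂ, l * q 1 + q 2 = 0 ∧ l ^ 2 * q 3 + l * q 4 + q 5 = 0 ∧
        l ^ 3 * q 6 + l ^ 2 * q 7 + l * q 8 + q 9 = 0 := by
      intro l
      have := hn _ (zR q hq l)
      rw [act_MR] at this
      simpa using this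
    obtain ⟨e2, e5, e9⟩ := hn q hq
    obtain ⟨a1, b1, c1⟩ := e 1
    obtain ⟨a2, b2, c2⟩ := e (-1)
    obtain ⟨a3, b3, c3⟩ := e 2
    refine ⟨?_, ?_, ?_, ?_, ?_, ?_⟩
    · linear_combination a1 - e2
    · linear_combination (1 / 2) * b1 + (1 / 2) * b2 - e5
    · linear_combination (1 / 2) * b1 - (1 / 2) * b2
    · linear_combination (1 / 6) * c3 - (1 / 2) * c1 - (1 / 6) * c2 + (1 / 2) * e9
    · linear_combination (1 / 2) * c1 + (1 / 2) * c2 - e9
    · linear_combination c1 - (1 / 3) * c2 - (1 / 6) * c3 - (1 / 2) * e9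
  have hpZ : p ∈ Z := ⟨_, _, _, _, Reach.one, by rw [act_one]⟩
  have htZ := zt p hpZ
  apply hp
  have k1 := hall p hpZ
  have k2 := hn p hpZ
  have k3 := z0 p hpZ
  have k4 := hall _ htZ
  have k5 := hn _ htZ
  have k6 := z0 _ htZ
  rw [act_Mtau] at k4 k5 k6
  simp at k4 k5 k6
  funext j
  fin_cases j <;> simp [k1, k2, k3, k4, k5, k6]

end Pool.Agent.Lib.MP_b7b3c1_ag
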