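import Pool.Agent.Lib.MP_b7b3c1_ag.Variety

set_option autoImplicit false

/-!
# Tangent spaces of `XX`
-/

namespace Pool.Agent.Lib.MP_b7b3c1_ag

open MvPolynomial

section dual

variable {m : ℕ}

/-- first order point -/
noncomputable def dl (p v : Fin m → ℂ) : Fin m → DualNumber ℂ :=
  fun i => TrivSqZeroExt.inl (p i) + TrivSqZeroExt.inr (v i)

theorem fst_dl (p v : Fin m → ℂ) (i : Fin m) : TrivSqZeroExt.fst (dl p v i) = p i := by
  simp [dl]

theorem snd_dl (p v : Fin m → ℂ) (i : Fin m) : TrivSqZeroExt.snd (dl p v i) = v i := by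
  simp [dl]

theorem dl_fst_snd (w : Fin m → DualNumber ℂ) :
    dl (fun i => TrivSqZeroExt.fst (w i)) (fun i => TrivSqZeroExt.snd (w i)) = w := by
  funext i
  exact TrivSqZeroExt.ext (fst_dl _ _ _) (snd_dl _ _ _)

/-- fst as an algebra homomorphism -/
noncomputable def fstA : DualNumber ℂ →ₐ[ℂ] ℂ := TrivSqZeroExt.fstHom ℂ ℂ ℂ

theorem fstA_apply (w : DualNumber ℂ) : fstA w = TrivSqZeroExt.fst w := rfl

/-- snd as a linear map -/
noncomputable def sndL : DualNumber ℂ →ₗ[ℂ] ℂ := TrivSqZeroExt.sndHom ℂ ℂ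

theorem sndL_apply (w : DualNumber ℂ) : sndL w = TrivSqZeroExt.snd w := rfl

theorem aeval_dl_fst (p v : Fin m → ℂ) (F : MvPolynomial (Fin m) ℂ) :
    TrivSqZeroExt.fst (aeval (dl p v) F) = aeval p F := by
  have h : fstA.comp (aeval (dl p v)) = (aeval p : MvPolynomial (Fin m) ℂ →ₐ[ℂ] ℂ) := by
    apply MvPolynomial.algHom_ext
    intro i
    rw [AlgHom.comp_apply, aeval_X, aeval_X, fstA_apply, fst_dl]
  rw [← h]; rfl

theorem aeval_dl_snd (p v : Fin m → ℂ) (F : MvPolynomial (Fin m) ℂ) :
    TrivSqZeroExt.snd (aeval (dl p v) F) = ∑ i, aeval p (pderiv i F) * v i := by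
  classical
  induction F using MvPolynomial.induction_on with
  | C a => simp [TrivSqZeroExt.algebraMap_eq_inl]
  | add f g hf hg =>
    rw [map_add, TrivSqZeroExt.snd_add, hf, hg, ← Finset.sum_add_distrib]
    apply Finset.sum_congr rfl
    intro i _
    rw [map_add, map_add, add_mul]
  | mul_X f i hf =>
    rw [map_mul, TrivSqZeroExt.snd_mul, hf, aeval_dl_fst, aeval_X, fst_dl, snd_dl]
    have h1 : ∀ j, aeval p (pderiv j (f * X i)) * v j =
        aeval p f * (if i = j then v j else 0) + p i * (aeval p (pderiv j f) * v j) := by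
      intro j
      rw [Derivation.leibniz, map_add, smul_eq_mul, smul_eq_mul, map_mul, map_mul, aeval_X]
      by_cases hij : i = j
      · subst hij
        simp
        ring
      · rw [pderiv_X_of_ne hij]
        simp [hij]
        ring
    rw [Finset.sum_congr rfl (fun j _ => h1 j), Finset.sum_add_distrib, ← Finset.mul_sum,
      ← Finset.mul_sum, Finset.sum_ite_eq]
    simp [mul_comm]

theorem act_dl (M : Matrix (Fin m) (Fin m) ℂ) (p v : Fin m → ℂ) :
    act M (dl p v) = dl (act M p) (act M v) := by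
  funext j
  apply TrivSqZeroExt.ext
  · rw [fst_dl, ← fstA_apply]
    have := map_act fstA.toLinearMap M (dl p v) j
    rw [AlgHom.toLinearMap_apply] at this
    rw [this]
    congr 1
    funext i
    rw [AlgHom.toLinearMap_apply, fstA_apply, fst_dl]
  · rw [snd_dl, ← sndL_apply, map_act]
    congr 1
    funext i
    rw [sndL_apply, snd_dl]

theorem lc_dl (p v : Fin 20 → ℂ) : lc (dl p v) = dl (lc p) (lc v) := by
  funext j
  apply TrivSqZeroExt.ext
  · fin_cases j <;> simp [lc, dl, mul_add]
  · fin_cases j <;> simp [lc, dl, mul_add]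

end dual

theorem mem_affTangent_XX (p v : Fin 20 → ℂ) : v ∈ XX.affTangent p ↔
    ∀ (d : ℕ) (F : MvPolynomial (Fin 20) ℂ), F.IsHomogeneous d →
    aeval zz F = 0 → ∑ i, aeval p (pderiv i F) * v i = 0 :=
  ⟨fun h d F h1 h2 => h d F ⟨h1, h2⟩, fun h d F h1 => h d F h1.1 h1.2⟩

theorem mem_affTangent_iff {p : Fin 20 → ℂ} (hp : XX.IsPoint p) (v : Fin 20 → ℂ) :
    v ∈ XX.affTangent p ↔ ∀ d H, Van d H → aeval (dl p v) H = 0 := by
  rw [isPoint_iff] at hp
  rw [mem_affTangent_XX]
  constructor
  · intro h d H hH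
    apply TrivSqZeroExt.ext
    · rw [aeval_dl_fst, hp.2 d H hH]; rfl
    · rw [aeval_dl_snd, h d H hH.1 ((van_iff hH.1).1 hH)]; rfl
  · intro h d H hH h0
    rw [← aeval_dl_snd, h d H ((van_iff hH).2 h0)]; rfl

/-- linear coordinates on the tangent space -/
noncomputable def phi0 (M : Matrix (Fin 20) (Fin 20) ℂ) :
    (Fin 20 → ℂ) →ₗ[ℂ] ℂ × (Fin 6 → ℂ) where
  toFun v := (act M v 0, lc (act M v))
  map_add' v w := by
    rw [act_add]
    refine Prod.ext rfl ?_
    funext i
    change lc (act M v + act M w) i = lc (act M v) i + lc (act M w) i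
    fin_cases i <;> simp [lc] <;> ring
  map_smul' c v := by
    have h : act M (c • v) = fun j => c * act M v j := by
      have := act_smul M c v
      rw [← this]; rfl
    rw [h, lc_smul]
    rfl

theorem phi0_apply (M : Matrix (Fin 20) (Fin 20) ℂ) (v : Fin 20 → ℂ) :
    phi0 M v = (act M v 0, lc (act M v)) := rfl

theorem finrank_affTangent {M M' : Matrix (Fin 20) (Fin 20) ℂ} {x : Fin 6 → KK} {t : KK}
    (hC : IsChart M M' x t) {p : Fin 20 → ℂ} (hp : XX.IsPoint p) (h0 : act M p 0 ≠ 0) :
    Module.finrank ℂ (XX.affTangent p) = 7 := by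
  let Φ := (phi0 M).comp (XX.affTangent p).subtype
  have hinj : Function.Injective Φ := by
    rw [injective_iff_map_eq_zero]
    rintro ⟨v, hv⟩ h
    have h1 : act M v 0 = 0 := congrArg Prod.fst h
    have h2 : lc (act M v) = 0 := congrArg Prod.snd h
    rw [mem_affTangent_iff hp] at hv
    have hk := hC.act_killed hv
    rw [act_dl] at hk
    have hy0 : dl (act M p) (act M v) 0 = TrivSqZeroExt.inl (act M p 0) := by
      apply TrivSqZeroExt.ext
      · rw [fst_dl]; rfl
      · rw [snd_dl, h1]; rfl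
    have hu : dl (act M p) (act M v) 0 * TrivSqZeroExt.inl ((act M p 0)⁻¹) = 1 := by
      rw [hy0, ← TrivSqZeroExt.inl_mul, mul_inv_cancel₀ h0]; rfl
    have hpar := param_of_van _ hk _ hu
    have hx : (fun i => (TrivSqZeroExt.inl ((act M p 0)⁻¹) : DualNumber ℂ) *
        lc (dl (act M p) (act M v)) i) = fun i => algebraMap ℂ (DualNumber ℂ) (prm M p i) := by
      funext i
      rw [lc_dl, h2]
      apply TrivSqZeroExt.ext
      · simp [dl, prm, TrivSqZeroExt.algebraMap_eq_inl]
      · simp [dl, TrivSqZeroExt.algebraMap_eq_inl]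
    rw [hx, hy0] at hpar
    have h3 : act M v = 0 := by
      funext j
      have h4 := congrArg TrivSqZeroExt.snd (hpar j)
      rw [snd_dl, ← map_cF (algebraMap ℂ (DualNumber ℂ)), TrivSqZeroExt.algebraMap_eq_inl,
        ← TrivSqZeroExt.inl_mul, TrivSqZeroExt.snd_inl] at h4
      exact h4
    have h5 : v = 0 := by rw [← hC.act2 v, h3, act_zero]
    exact Subtype.ext h5
  have hsurj : Function.Surjective Φ := by
    rintro ⟨s, b⟩
    set c := act M p 0 with hc
    set a := prm M p with ha
    let be : Fin 6 → ℂ := fun i => (b i - s * a i) / c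
    let w : Fin 20 → DualNumber ℂ :=
      act M' (fun j => (TrivSqZeroExt.inl c + TrivSqZeroExt.inr s) * cF (dl a be) j)
    let v : Fin 20 → ℂ := fun i => TrivSqZeroExt.snd (w i)
    have hactw : act M w = fun j => (TrivSqZeroExt.inl c + TrivSqZeroExt.inr s) *
        cF (dl a be) j := hC.act1 _
    have hpt := hC.act_point hp h0
    have hfst : (fun i => TrivSqZeroExt.fst (w i)) = p := by
      have h1 : act M (fun i => TrivSqZeroExt.fst (w i)) = act M p := by
        funext j
        have := map_act fstA.toLinearMap M w j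
        rw [AlgHom.toLinearMap_apply] at this
        rw [show (fun i => TrivSqZeroExt.fst (w i)) = fun i => fstA.toLinearMap (w i) from rfl,
          ← this, hactw, hpt, map_mul]
        have h2 := map_cF fstA.toRingHom (dl a be) j
        simp only [AlgHom.toRingHom_eq_coe, RingHom.coe_coe] at h2
        rw [h2]
        congr 1
        · simp [fstA_apply, hc]
        · congr 1
          funext i
          rw [fstA_apply, fst_dl]
      rw [← hC.act2 p, ← h1, hC.act2]
    have hw : w = dl p v := by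
      rw [← hfst]; exact (dl_fst_snd w).symm
    have hv : v ∈ XX.affTangent p := by
      rw [mem_affTangent_iff hp, ← hw]
      exact fun d H hH => hC.killed_of_param _ _ d H hH
    refine ⟨⟨v, hv⟩, ?_⟩
    change phi0 M v = (s, b)
    have h3 : dl (act M p) (act M v) = fun j => (TrivSqZeroExt.inl c + TrivSqZeroExt.inr s) *
        cF (dl a be) j := by
      rw [← act_dl, ← hw, hactw]
    rw [phi0_apply]
    refine Prod.ext ?_ ?_
    · change act M v 0 = s
      rw [← snd_dl (act M p) (act M v) 0, h3]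
      change TrivSqZeroExt.snd ((TrivSqZeroExt.inl c + TrivSqZeroExt.inr s) *
        cF (dl a be) 0) = s
      rw [cF_zero, mul_one]
      simp
    · change lc (act M v) = b
      funext i
      have h4 := congrArg (fun y => TrivSqZeroExt.snd (lc y i)) h3
      simp only [lc_dl, snd_dl, lc_smul, lc_cF] at h4
      rw [h4, TrivSqZeroExt.snd_mul, snd_dl, fst_dl]
      simp only [TrivSqZeroExt.fst_add, TrivSqZeroExt.fst_inl, TrivSqZeroExt.fst_inr, add_zero,
        TrivSqZeroExt.snd_add, TrivSqZeroExt.snd_inl, TrivSqZeroExt.snd_inr, zero_add,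
        smul_eq_mul, MulOpposite.smul_eq_mul_unop, MulOpposite.unop_op]
      simp only [be]
      field_simp
      ring
  have e := LinearEquiv.ofBijective Φ ⟨hinj, hsurj⟩
  rw [e.finrank_eq]
  simp

end Pool.Agent.Lib.MP_b7b3c1_ag
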