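import Pool.Agent.Lib.MP_b7b3c1_ag.Reach

set_option autoImplicit false

/-!
# Locally principal divisors on affine space are principal
-/

namespace Pool.Agent.Lib.MP_b7b3c1_ag

open MvPolynomial

theorem nulls {h : PP} {I : Ideal PP}
    (H : ∀ a : Fin 6 → ℂ, aeval a h ≠ 0 → ∃ f ∈ I, aeval a f ≠ 0) : ∃ s : ℕ, h ^ s ∈ I := by
  have h1 : h ∈ I.radical := by
    rw [← vanishingIdeal_zeroLocus_eq_radical (K := ℂ) I, mem_vanishingIdeal_iff]
    intro a ha
    by_contra hne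
    obtain ⟨f, hf, hfa⟩ := H a hne
    exact hfa (ha f hf)
  exact h1

theorem exists_gcd {ι : Type} (S : Finset ι) (f : ι → PP) :
    ∃ g : PP, (∀ b ∈ S, g ∣ f b) ∧ ∀ e c : PP, (∀ b ∈ S, e ∣ f b * c) → e ∣ g * c := by
  classical
  let _ := UniqueFactorizationMonoid.toGCDMonoid PP
  induction S using Finset.induction_on with
  | empty =>
    refine ⟨0, fun b hb => absurd hb (Finset.notMem_empty b), fun e c _ => ?_⟩
    rw [zero_mul]; exact dvd_zero e
  | insert b S hb ih =>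
    obtain ⟨g, h1, h2⟩ := ih
    refine ⟨gcd (f b) g, ?_, ?_⟩
    · intro c hc
      rcases Finset.mem_insert.1 hc with rfl | hc
      · exact gcd_dvd_left _ _
      · exact (gcd_dvd_right _ _).trans (h1 c hc)
    · intro e c hec
      have e1 := hec b (Finset.mem_insert_self _ _)
      have e2 := h2 e c (fun b' hb' => hec b' (Finset.mem_insert_of_mem hb'))
      have e3 : e ∣ gcd (f b * c) (g * c) := dvd_gcd e1 e2
      exact e3.trans (gcd_mul_right' c (f b) g).dvd

/-- `u` is a unit at the point with parameters `a`. -/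
def UnitAtParam (x : Fin 6 → KK) (a : Fin 6 → ℂ) (u : KKˣ) : Prop :=
  ∃ g h : PP, aeval a g ≠ 0 ∧ aeval a h ≠ 0 ∧ (u : KK) * aeval x h = aeval x g

theorem UnitAtParam.mul {x : Fin 6 → KK} {a : Fin 6 → ℂ} {u v : KKˣ}
    (hu : UnitAtParam x a u) (hv : UnitAtParam x a v) : UnitAtParam x a (u * v) := by
  obtain ⟨g, h, h1, h2, h3⟩ := hu
  obtain ⟨g', h', h1', h2', h3'⟩ := hv
  refine ⟨g * g', h * h', ?_, ?_, ?_⟩
  · rw [map_mul]; exact mul_ne_zero h1 h1'
  · rw [map_mul]; exact mul_ne_zero h2 h2'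
  · rw [map_mul, map_mul, ← h3, ← h3', Units.val_mul]; ring

theorem UnitAtParam.inv {x : Fin 6 → KK} {a : Fin 6 → ℂ} {u : KKˣ}
    (hu : UnitAtParam x a u) : UnitAtParam x a u⁻¹ := by
  obtain ⟨g, h, h1, h2, h3⟩ := hu
  refine ⟨h, g, h2, h1, ?_⟩
  rw [← h3, ← mul_assoc, Units.inv_mul, one_mul]

section chart

variable {M M' : Matrix (Fin 20) (Fin 20) ℂ} {x : Fin 6 → KK} {t : KK}

theorem dvd_of_units (hC : IsChart M M' x t) {F G h : PP} {u : KKˣ}
    (hu : (u : KK) * aeval x G = aeval x F)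
    (H : ∀ a : Fin 6 → ℂ, aeval a h ≠ 0 → UnitAtParam x a u) : ∃ s, F ∣ G * h ^ s := by
  let I : Ideal PP :=
    { carrier := {y | F ∣ G * y}
      add_mem' := by
        intro a b ha hb
        change F ∣ G * (a + b)
        rw [mul_add]; exact dvd_add ha hb
      zero_mem' := by
        change F ∣ G * 0
        rw [mul_zero]; exact dvd_zero F
      smul_mem' := by
        intro c y hy
        change F ∣ G * (c * y)
        rw [mul_left_comm]; exact Dvd.dvd.mul_left hy c }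
  have : ∃ s : ℕ, h ^ s ∈ I := by
    apply nulls
    intro a ha
    obtain ⟨g', h', h1, h2, h3⟩ := H a ha
    refine ⟨g', ?_, h1⟩
    change F ∣ G * g'
    refine ⟨h', ?_⟩
    apply hC.injective
    rw [map_mul, map_mul, ← h3, ← hu]; ring
  exact this

/-- A unit on the complement of the zero set of a prime element. -/
theorem unit_form (hC : IsChart M M' x t) {e : PP} {u : KKˣ}
    (H : ∀ a : Fin 6 → ℂ, aeval a e ≠ 0 → UnitAtParam x a u) :
    ∃ (s : ℕ) (u1 u2 : PP), u1 * u2 = e ^ s ∧ ∃ s' : ℕ, (u : KK) * aeval x u1 = aeval x (e ^ s') := by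
  obtain ⟨g, h, h0, h1⟩ := hC.frac (u : KK)
  have hg : g ≠ 0 := by
    rintro rfl
    rw [map_zero] at h1
    exact h0 ((mul_eq_zero.1 h1).resolve_left u.ne_zero)
  have hh : h ≠ 0 := by rintro rfl; rw [map_zero] at h0; exact h0 rfl
  obtain ⟨s1, w1, hw1⟩ := dvd_of_units hC h1 H
  have h2 : ((u⁻¹ : KKˣ) : KK) * aeval x g = aeval x h := by
    rw [← h1, ← mul_assoc, Units.inv_mul, one_mul]
  obtain ⟨s2, w2, hw2⟩ := dvd_of_units hC h2 (fun a ha => (H a ha).inv)
  refine ⟨s1 + s2, w1, w2, ?_, s1, ?_⟩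
  · apply mul_left_cancel₀ (mul_ne_zero hg hh)
    calc g * h * (w1 * w2) = (g * w1) * (h * w2) := by ring
      _ = (h * e ^ s1) * (g * e ^ s2) := by rw [← hw1, ← hw2]
      _ = _ := by rw [pow_add]; ring
  · apply mul_left_cancel₀ h0
    calc aeval x h * ((u : KK) * aeval x w1) = (u * aeval x h) * aeval x w1 := by ring
      _ = aeval x (g * w1) := by rw [h1, map_mul]
      _ = aeval x h * aeval x (e ^ s1) := by rw [← hw1, map_mul]

theorem unit_const (hC : IsChart M M' x t) {u : KKˣ}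
    (H : ∀ a : Fin 6 → ℂ, UnitAtParam x a u) :
    ∃ c : ℂ, c ≠ 0 ∧ (u : KK) = algebraMap ℂ KK c := by
  obtain ⟨s, u1, u2, h1, s', h2⟩ := unit_form hC (e := 1) (fun a _ => H a)
  rw [one_pow] at h1 h2
  obtain ⟨c, hc, hc'⟩ := isUnit_iff_eq_C_of_isReduced.1 (IsUnit.of_mul_eq_one _ h1)
  subst hc'
  have hc0 := hc.ne_zero
  refine ⟨c⁻¹, inv_ne_zero hc0, ?_⟩
  rw [map_one, aeval_C] at h2
  rw [map_inv₀]
  exact eq_inv_of_mul_eq_one_left h2

theorem unit_zpow (hC : IsChart M M' x t) {u : KKˣ}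
    (H : ∀ a : Fin 6 → ℂ, a 4 ≠ 0 → UnitAtParam x a u) :
    ∃ (c : ℂ) (k : ℤ), c ≠ 0 ∧ (u : KK) = algebraMap ℂ KK c * x 4 ^ k := by
  obtain ⟨s, u1, u2, h1, s', h2⟩ := unit_form hC (e := X 4)
    (fun a ha => H a (by rwa [aeval_X] at ha))
  obtain ⟨i, hi, v, hv⟩ := (dvd_prime_pow (X_prime (i := (4 : Fin 6)) (R := ℂ)) s).1 (Dvd.intro _ h1)
  obtain ⟨c, hc, hc'⟩ := isUnit_iff_eq_C_of_isReduced.1 v.isUnit
  rw [hc'] at hv
  have hc0 := hc.ne_zero
  have hx := hC.x_ne_zero 4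
  rw [map_pow, aeval_X] at h2
  have h3 : aeval x u1 * algebraMap ℂ KK c = x 4 ^ i := by
    have := congrArg (aeval x) hv
    rwa [map_mul, aeval_C, map_pow, aeval_X] at this
  refine ⟨c, (s' : ℤ) - i, hc0, ?_⟩
  rw [zpow_sub₀ hx, zpow_natCast, zpow_natCast, ← h2, ← h3]
  have hc1 : algebraMap ℂ KK c ≠ 0 := by
    rw [map_ne_zero]; exact hc0
  have hu1 : aeval x u1 ≠ 0 := by
    intro h; rw [h, zero_mul] at h3; exact pow_ne_zero i hx h3.symm
  field_simp

/-- Locally principal divisors on the affine space of parameters are principal. -/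
theorem principal_of_local (hC : IsChart M M' x t) (D : (Fin 6 → ℂ) → KKˣ)
    (H : ∀ a : Fin 6 → ℂ, ∃ (h : PP) (f : KKˣ), aeval a h ≠ 0 ∧
      ∀ b : Fin 6 → ℂ, aeval b h ≠ 0 → UnitAtParam x b (D b / f)) :
    ∃ g : KKˣ, ∀ b, UnitAtParam x b (D b / g) := by
  classical
  choose h f h1 h2 using H
  -- finitely many suffice
  have hone : (1 : PP) ∈ Ideal.span (Set.range h) := by
    obtain ⟨s, hs⟩ := nulls (h := 1) (I := Ideal.span (Set.range h))
      (fun a _ => ⟨h a, Ideal.subset_span ⟨a, rfl⟩, h1 a⟩)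
    rwa [one_pow] at hs
  obtain ⟨c, hc⟩ := (Finsupp.mem_ideal_span_range_iff_exists_finsupp).1 hone
  set S : Finset (Fin 6 → ℂ) := c.support with hS
  have hcover : ∀ b : Fin 6 → ℂ, ∃ a ∈ S, aeval b (h a) ≠ 0 := by
    intro b
    by_contra hcon
    push Not at hcon
    have h3 := congrArg (aeval b : PP →ₐ[ℂ] ℂ) hc
    rw [Finsupp.sum, map_sum, Finset.sum_eq_zero, map_one] at h3
    · exact one_ne_zero h3.symm
    · intro a ha
      rw [map_mul, hcon a ha, mul_zero]
  -- common denominator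
  have hden : ∀ T : Finset (Fin 6 → ℂ), ∃ w : PP, w ≠ 0 ∧ ∀ a ∈ T, ∃ F : PP,
      (f a : KK) * aeval x w = aeval x F := by
    intro T
    induction T using Finset.induction_on with
    | empty => exact ⟨1, one_ne_zero, fun a ha => absurd ha (Finset.notMem_empty a)⟩
    | insert b T hb ih =>
      obtain ⟨w, hw, hF⟩ := ih
      obtain ⟨g, k, hk, hgk⟩ := hC.frac (f b : KK)
      have hk0 : k ≠ 0 := by rintro rfl; rw [map_zero] at hk; exact hk rfl
      refine ⟨w * k, mul_ne_zero hw hk0, ?_⟩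
      intro a ha
      rcases Finset.mem_insert.1 ha with rfl | ha
      · refine ⟨g * w, ?_⟩
        rw [map_mul, map_mul, ← hgk]; ring
      · obtain ⟨F, hF'⟩ := hF a ha
        refine ⟨F * k, ?_⟩
        rw [map_mul, map_mul, ← hF']; ring
  obtain ⟨w, hw, hF⟩ := hden S
  have hF' : ∀ a : Fin 6 → ℂ, ∃ F : PP, a ∈ S → (f a : KK) * aeval x w = aeval x F := by
    intro a
    by_cases ha : a ∈ S
    · obtain ⟨F, hF1⟩ := hF a ha
      exact ⟨F, fun _ => hF1⟩
    · exact ⟨0, fun h => absurd h ha⟩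
  choose F hFa using hF'
  have hw' : aeval x w ≠ 0 := hC.aeval_ne_zero hw
  have hF0 : ∀ a ∈ S, F a ≠ 0 := by
    intro a ha h0
    have := hFa a ha
    rw [h0, map_zero] at this
    exact (mul_ne_zero (f a).ne_zero hw') this
  -- divisibilities
  have hdiv : ∀ a b : Fin 6 → ℂ, ∃ s : ℕ, a ∈ S → b ∈ S → F a ∣ F b * (h a * h b) ^ s := by
    intro a b
    by_cases hab : a ∈ S ∧ b ∈ S
    · obtain ⟨ha, hb⟩ := hab
      have hu : ((f a / f b : KKˣ) : KK) * aeval x (F b) = aeval x (F a) := by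
        rw [← hFa a ha, ← hFa b hb, Units.val_div_eq_div_val]
        have := (f b).ne_zero
        field_simp
      obtain ⟨s, hs⟩ := dvd_of_units hC (h := h a * h b) hu (by
        intro p hp
        rw [map_mul] at hp
        have e1 := h2 a p (left_ne_zero_of_mul hp)
        have e2 := h2 b p (right_ne_zero_of_mul hp)
        have e3 := e1.inv.mul e2
        have e4 : (D p / f a)⁻¹ * (D p / f b) = f a / f b := by
          rw [inv_div, div_mul_div_cancel]
        rwa [e4] at e3)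
      exact ⟨s, fun _ _ => hs⟩
    · exact ⟨0, fun h3 h4 => absurd ⟨h3, h4⟩ hab⟩
  choose s0 hs0 using hdiv
  set s : ℕ := S.sup (fun a => S.sup (fun b => s0 a b)) with hsdef
  have hs : ∀ a ∈ S, ∀ b ∈ S, F a ∣ F b * (h a * h b) ^ s := by
    intro a ha b hb
    refine (hs0 a b ha hb).trans (mul_dvd_mul_left _ (pow_dvd_pow _ ?_))
    refine le_trans (Finset.le_sup (f := fun b => s0 a b) hb) ?_
    exact Finset.le_sup (f := fun a => S.sup (fun b => s0 a b)) ha
  obtain ⟨g, hg1, hg2⟩ := exists_gcd S (fun b => F b * h b ^ s)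
  have hg3 : ∀ a ∈ S, F a ∣ g * h a ^ s := by
    intro a ha
    apply hg2
    intro b hb
    have := hs a ha b hb
    have e : F b * (h a * h b) ^ s = F b * h b ^ s * h a ^ s := by
      rw [mul_pow]; ring
    rwa [e] at this
  obtain ⟨a0, ha0, _⟩ := hcover 0
  have hh0 : ∀ a, h a ≠ 0 := by
    intro a h0
    apply h1 a
    rw [h0, map_zero]
  have hg0 : g ≠ 0 := by
    rintro rfl
    have := zero_dvd_iff.1 (hg1 a0 ha0)
    exact (mul_ne_zero (hF0 a0 ha0) (pow_ne_zero _ (hh0 a0))) this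
  have hgx : aeval x g ≠ 0 := hC.aeval_ne_zero hg0
  refine ⟨Units.mk0 (aeval x g / aeval x w) (div_ne_zero hgx hw'), ?_⟩
  intro b
  obtain ⟨a, ha, hab⟩ := hcover b
  have e1 := h2 a b hab
  obtain ⟨u1, hu1⟩ := hg1 a ha
  obtain ⟨u2, hu2⟩ := hg3 a ha
  have hu12 : u1 * u2 = h a ^ (s + s) := by
    apply mul_left_cancel₀ (mul_ne_zero hg0 (hF0 a ha))
    calc g * F a * (u1 * u2) = (g * u1) * (F a * u2) := by ring
      _ = (F a * h a ^ s) * (g * h a ^ s) := by rw [← hu1, ← hu2]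
      _ = _ := by rw [pow_add]; ring
  have e2 : UnitAtParam x b (f a / Units.mk0 (aeval x g / aeval x w) (div_ne_zero hgx hw')) := by
    refine ⟨u1, h a ^ s, ?_, ?_, ?_⟩
    · intro h0
      have := congrArg (aeval b : PP →ₐ[ℂ] ℂ) hu12
      rw [map_mul, h0, zero_mul, map_pow] at this
      exact pow_ne_zero _ hab this.symm
    · rw [map_pow]; exact pow_ne_zero _ hab
    · rw [Units.val_div_eq_div_val, Units.val_mk0]
      have e3 : aeval x g * aeval x u1 = aeval x (F a) * aeval x (h a ^ s) := by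
        rw [← map_mul, ← hu1, map_mul]
      rw [← hFa a ha] at e3
      field_simp
      linear_combination (-1 : KK) * e3
  have e3 := e1.mul e2
  rwa [div_mul_div_cancel] at e3

end chart

end Pool.Agent.Lib.MP_b7b3c1_ag
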