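import Pool.Agent.Lib.MP_b7b3c1_ag.Defs
import Pool.Agent.Lib.MP_b7b3c1_ag.Gen

set_option autoImplicit false

/-!
# The sixfold `XX` in `ℙ^19` and its charts
-/

namespace Pool.Agent.Lib.MP_b7b3c1_ag

open MvPolynomial

/-- The polynomial ring in the six parameters. -/
abbrev PP : Type := MvPolynomial (Fin 6) ℂ

/-- The function field. -/
abbrev KK : Type := FractionRing PP

/-- The parameters as elements of the function field. -/
noncomputable def xi (i : Fin 6) : KK := algebraMap PP KK (X i)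

theorem algebraMap_eq_aeval (g : PP) : algebraMap PP KK g = aeval xi g := by
  have h : (IsScalarTower.toAlgHom ℂ PP KK) = aeval xi := by
    apply MvPolynomial.algHom_ext
    intro i
    rw [aeval_X]; rfl
  rw [← h]; rfl

theorem aeval_xi_injective : Function.Injective (aeval xi : PP →ₐ[ℂ] KK) := by
  intro a b h
  rw [← algebraMap_eq_aeval, ← algebraMap_eq_aeval] at h
  exact IsFractionRing.injective PP KK h

theorem lc_cF_xi (i : Fin 6) : lc (cF xi) i = cF xi 0 * xi i := by
  rw [lc_cF, cF_zero, one_mul]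

/-- The variety. -/
noncomputable def XX : ProjVar 19 where
  K := KK
  z := cF xi
  exists_ne_zero := ⟨0, by rw [cF_zero]; exact one_ne_zero⟩
  generated := by
    intro x
    obtain ⟨g, h, hh, rfl⟩ := IsFractionRing.div_surjective (A := PP) x
    obtain ⟨d1, h1⟩ := exists_homog g
    obtain ⟨d2, h2⟩ := exists_homog h
    obtain ⟨G, hG, hG'⟩ := h1 (max d1 d2) (le_max_left _ _)
    obtain ⟨H, hH, hH'⟩ := h2 (max d1 d2) (le_max_right _ _)
    have e1 := hG' KK (cF xi) xi lc_cF_xi
    have e2 := hH' KK (cF xi) xi lc_cF_xi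
    rw [cF_zero, one_pow, one_mul, ← algebraMap_eq_aeval] at e1 e2
    have hne : algebraMap PP KK h ≠ 0 := by
      intro h0
      have := IsFractionRing.injective PP KK (h0.trans (map_zero _).symm)
      exact (nonZeroDivisors.ne_zero hh) this
    refine ⟨max d1 d2, G, H, hG, hH, ?_, ?_⟩
    · rw [e2]; exact hne
    · rw [e1, e2]; exact div_mul_cancel₀ _ hne

/-- The coordinates of the generic point. -/
noncomputable def zz : Fin 20 → KK := cF xi

theorem XX_generated (k : KK) : ∃ (d : ℕ) (F G : MvPolynomial (Fin 20) ℂ),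
    F.IsHomogeneous d ∧ G.IsHomogeneous d ∧ aeval zz G ≠ 0 ∧ k * aeval zz G = aeval zz F :=
  XX.generated k

theorem mem_localRing_XX (p : Fin 20 → ℂ) (k : KK) : k ∈ XX.localRing p ↔
    ∃ (d : ℕ) (F G : MvPolynomial (Fin 20) ℂ), F.IsHomogeneous d ∧ G.IsHomogeneous d ∧
      aeval p G ≠ 0 ∧ k * aeval zz G = aeval zz F :=
  Iff.rfl

theorem isPoint_XX (p : Fin 20 → ℂ) : XX.IsPoint p ↔
    p ≠ 0 ∧ ∀ (d : ℕ) (F : MvPolynomial (Fin 20) ℂ), F.IsHomogeneous d →
    aeval zz F = 0 → aeval p F = 0 :=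
  ⟨fun h => ⟨h.1, fun d F h1 h2 => h.2 d F ⟨h1, h2⟩⟩,
    fun h => ⟨h.1, fun d F h1 => h.2 d F h1.1 h1.2⟩⟩

theorem van_iff {d : ℕ} {H : MvPolynomial (Fin 20) ℂ} (hH : H.IsHomogeneous d) :
    Van d H ↔ aeval zz H = 0 := by
  unfold Van
  have h : aeval zz H = aeval xi (aeval (cF (X : Fin 6 → PP)) H) := by
    rw [aeval_cF]; rfl
  rw [h]
  constructor
  · rintro ⟨_, h⟩; rw [h, map_zero]
  · intro h
    refine ⟨hH, aeval_xi_injective ?_⟩
    rw [h, map_zero]

theorem isPoint_iff (p : Fin 20 → ℂ) :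
    XX.IsPoint p ↔ p ≠ 0 ∧ ∀ d H, Van d H → aeval p H = 0 := by
  rw [isPoint_XX]
  constructor
  · rintro ⟨h0, h⟩
    exact ⟨h0, fun d H hH => h d H hH.1 ((van_iff hH.1).1 hH)⟩
  · rintro ⟨h0, h⟩
    exact ⟨h0, fun d H hH h1 => h d H ((van_iff hH).2 h1)⟩

theorem trdeg_KK : Algebra.trdeg ℂ KK = 6 := by
  have : Algebra.IsAlgebraic PP KK := IsLocalization.isAlgebraic (R := PP) (S := KK) (nonZeroDivisors PP)
  have h1 := (IsTranscendenceBasis.mvPolynomial (Fin 6) ℂ)
  have h2 : IsTranscendenceBasis ℂ (algebraMap PP KK ∘ X) := h1.algebraMap_comp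
  have h3 := h2.cardinalMk_eq_trdeg
  rw [← h3]
  simp

/-- A chart: an invertible linear change of coordinates after which the generic point is a
multiple of `cF x`. -/
structure IsChart (M M' : Matrix (Fin 20) (Fin 20) ℂ) (x : Fin 6 → KK) (t : KK) : Prop where
  inv1 : M * M' = 1
  inv2 : M' * M = 1
  t_ne : t ≠ 0
  eq : act M zz = fun j => t * cF x j

namespace IsChart

variable {M M' : Matrix (Fin 20) (Fin 20) ℂ} {x : Fin 6 → KK} {t : KK}

theorem act1 (hC : IsChart M M' x t) {R : Type} [AddCommMonoid R] [Module ℂ R]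
    (y : Fin 20 → R) : act M (act M' y) = y := by
  rw [← act_mul, hC.inv1, act_one]

theorem act2 (hC : IsChart M M' x t) {R : Type} [AddCommMonoid R] [Module ℂ R]
    (y : Fin 20 → R) : act M' (act M y) = y := by
  rw [← act_mul, hC.inv2, act_one]

/-- value of a form at the generic point -/
theorem aeval_z (hC : IsChart M M' x t) {d : ℕ} {F : MvPolynomial (Fin 20) ℂ}
    (hF : F.IsHomogeneous d) :
    aeval zz F = t ^ d * aeval x (aeval (cF (X : Fin 6 → PP)) (pcomp M' F)) := by
  rw [aeval_cF, ← aeval_smul_homog (pcomp_homog M' hF), ← hC.eq, aeval_pcomp, hC.act2]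

theorem frac (hC : IsChart M M' x t) (k : KK) :
    ∃ g h : PP, aeval x h ≠ 0 ∧ k * aeval x h = aeval x g := by
  obtain ⟨d, F, G, hF, hG, h0, h1⟩ := XX_generated k
  rw [hC.aeval_z hG] at h0 h1
  rw [hC.aeval_z hF] at h1
  refine ⟨aeval (cF (X : Fin 6 → PP)) (pcomp M' F), aeval (cF (X : Fin 6 → PP)) (pcomp M' G),
    fun h => h0 (by rw [h, mul_zero]), ?_⟩
  have ht : t ^ d ≠ 0 := pow_ne_zero _ hC.t_ne
  apply mul_left_cancel₀ ht
  rw [← h1]; ring

theorem algIndep (hC : IsChart M M' x t) : AlgebraicIndependent ℂ x := by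
  have : Algebra.IsAlgebraic (Algebra.adjoin ℂ (Set.range x)) KK := by
    constructor
    intro k
    obtain ⟨g, h, h0, h1⟩ := hC.frac k
    have hmem : ∀ f : PP, aeval x f ∈ Algebra.adjoin ℂ (Set.range x) := by
      intro f
      rw [Algebra.adjoin_range_eq_range_aeval]
      exact ⟨f, rfl⟩
    let A := Algebra.adjoin ℂ (Set.range x)
    refine ⟨Polynomial.C (⟨aeval x h, hmem h⟩ : A) * Polynomial.X -
      Polynomial.C (⟨aeval x g, hmem g⟩ : A), ?_, ?_⟩
    · intro h2
      have h3 := congrArg (fun q => Polynomial.coeff q 1) h2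
      simp only [Polynomial.coeff_sub, Polynomial.coeff_C_mul, Polynomial.coeff_X_one, mul_one,
        Polynomial.coeff_zero] at h3
      rw [Polynomial.coeff_C_of_ne_zero one_ne_zero, sub_zero] at h3
      exact h0 (congrArg Subtype.val h3)
    · rw [map_sub, map_mul, Polynomial.aeval_X, Polynomial.aeval_C, Polynomial.aeval_C]
      change aeval x h * k - aeval x g = 0
      rw [← h1]; ring
  refine (Algebra.IsAlgebraic.isTranscendenceBasis_of_le_trdeg_of_finite ℂ x ?_).1
  rw [trdeg_KK]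
  simp

theorem injective (hC : IsChart M M' x t) : Function.Injective (aeval x : PP →ₐ[ℂ] KK) :=
  hC.algIndep

theorem aeval_ne_zero (hC : IsChart M M' x t) {g : PP} (hg : g ≠ 0) : aeval x g ≠ 0 := by
  intro h
  exact hg (hC.injective (h.trans (map_zero _).symm))

theorem x_ne_zero (hC : IsChart M M' x t) (i : Fin 6) : x i ≠ 0 := by
  have := hC.aeval_ne_zero (g := X i) (X_ne_zero i)
  rwa [aeval_X] at this

theorem van_pcomp' (hC : IsChart M M' x t) {d : ℕ} {H : MvPolynomial (Fin 20) ℂ}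
    (hH : Van d H) : Van d (pcomp M' H) := by
  have h1 := hC.aeval_z hH.1
  rw [(van_iff hH.1).1 hH] at h1
  refine ⟨pcomp_homog M' hH.1, hC.injective ?_⟩
  rw [map_zero]
  exact (mul_eq_zero.1 h1.symm).resolve_left (pow_ne_zero _ hC.t_ne)

theorem van_pcomp (hC : IsChart M M' x t) {d : ℕ} {H : MvPolynomial (Fin 20) ℂ}
    (hH : Van d H) : Van d (pcomp M H) := by
  rw [van_iff (pcomp_homog M hH.1), aeval_pcomp, hC.eq, aeval_smul_homog hH.1,
    hH.aeval_cF_eq, mul_zero]

/-- vectors with entries in a ring killed by the vanishing forms are preserved by charts -/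
theorem act_killed (hC : IsChart M M' x t) {R : Type} [CommRing R] [Algebra ℂ R]
    {y : Fin 20 → R} (hy : ∀ d H, Van d H → aeval y H = 0) (d : ℕ)
    (H : MvPolynomial (Fin 20) ℂ) (hH : Van d H) : aeval (act M y) H = 0 := by
  rw [← aeval_pcomp]; exact hy d _ (hC.van_pcomp hH)

theorem act'_killed (hC : IsChart M M' x t) {R : Type} [CommRing R] [Algebra ℂ R]
    {y : Fin 20 → R} (hy : ∀ d H, Van d H → aeval y H = 0) (d : ℕ)
    (H : MvPolynomial (Fin 20) ℂ) (hH : Van d H) : aeval (act M' y) H = 0 := by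
  rw [← aeval_pcomp]; exact hy d _ (hC.van_pcomp' hH)

/-- points with parameters in a ring -/
theorem killed_of_param (hC : IsChart M M' x t) {R : Type} [CommRing R] [Algebra ℂ R]
    (s : R) (a : Fin 6 → R) (d : ℕ) (H : MvPolynomial (Fin 20) ℂ) (hH : Van d H) :
    aeval (act M' (fun j => s * cF a j)) H = 0 := by
  apply hC.act'_killed _ d H hH
  intro e G hG
  rw [aeval_smul_homog hG.1, hG.aeval_cF_eq, mul_zero]

theorem isPoint_act (hC : IsChart M M' x t) {p : Fin 20 → ℂ} (hp : XX.IsPoint p) :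
    XX.IsPoint (act M p) := by
  rw [isPoint_iff] at hp ⊢
  refine ⟨?_, hC.act_killed hp.2⟩
  intro h
  apply hp.1
  rw [← hC.act2 p, h, act_zero]

/-- the parameters of a point in a chart -/
noncomputable def _root_.Pool.Agent.Lib.MP_b7b3c1_ag.prm
    (M : Matrix (Fin 20) (Fin 20) ℂ) (p : Fin 20 → ℂ) : Fin 6 → ℂ :=
  fun i => (act M p 0)⁻¹ * lc (act M p) i

theorem act_point (hC : IsChart M M' x t) {p : Fin 20 → ℂ} (hp : XX.IsPoint p)
    (h0 : act M p 0 ≠ 0) : act M p = fun j => act M p 0 * cF (prm M p) j := by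
  funext j
  rw [isPoint_iff] at hp
  exact param_of_van (act M p) (hC.act_killed hp.2) _ (mul_inv_cancel₀ h0) j

/-- the point with given parameters in a chart -/
theorem isPoint_param (hC : IsChart M M' x t) (a : Fin 6 → ℂ) :
    XX.IsPoint (act M' (cF a)) := by
  rw [isPoint_iff]
  refine ⟨?_, ?_⟩
  · intro h
    have h1 : act M (act M' (cF a)) 0 = 0 := by rw [h, act_zero]; rfl
    rw [hC.act1, cF_zero] at h1
    exact one_ne_zero h1
  · intro d H hH
    have := hC.killed_of_param (1 : ℂ) a d H hH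
    simpa using this

theorem act_param (hC : IsChart M M' x t) (a : Fin 6 → ℂ) : act M (act M' (cF a)) = cF a :=
  hC.act1 _

theorem prm_param (hC : IsChart M M' x t) (a : Fin 6 → ℂ) : prm M (act M' (cF a)) = a := by
  funext i
  unfold prm
  rw [hC.act1, cF_zero, inv_one, one_mul, lc_cF]

/-- The local ring in a chart. -/
theorem mem_localRing_iff (hC : IsChart M M' x t) {p : Fin 20 → ℂ} (hp : XX.IsPoint p)
    (h0 : act M p 0 ≠ 0) (k : KK) :
    k ∈ XX.localRing p ↔ ∃ g h : PP, aeval (prm M p) h ≠ 0 ∧ k * aeval x h = aeval x g := by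
  have hap := hC.act_point hp h0
  rw [mem_localRing_XX]
  constructor
  · rintro ⟨d, F, G, hF, hG, h1, h2⟩
    rw [hC.aeval_z hG, hC.aeval_z hF] at h2
    refine ⟨aeval (cF (X : Fin 6 → PP)) (pcomp M' F), aeval (cF (X : Fin 6 → PP)) (pcomp M' G),
      ?_, ?_⟩
    rotate_left 1
    · have ht : t ^ d ≠ 0 := pow_ne_zero _ hC.t_ne
      apply mul_left_cancel₀ ht
      rw [← h2]; ring
    · rw [aeval_cF]
      intro h3
      apply h1
      have h4 : aeval (act M p) (pcomp M' G) = aeval p G := by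
        rw [aeval_pcomp, hC.act2]
      rw [← h4, hap, aeval_smul_homog (pcomp_homog M' hG), h3, mul_zero]
  · rintro ⟨g, h, h1, h2⟩
    obtain ⟨d1, e1⟩ := exists_homog g
    obtain ⟨d2, e2⟩ := exists_homog h
    obtain ⟨G, hG, hG'⟩ := e1 (max d1 d2) (le_max_left _ _)
    obtain ⟨H, hH, hH'⟩ := e2 (max d1 d2) (le_max_right _ _)
    refine ⟨max d1 d2, pcomp M G, pcomp M H, pcomp_homog M hG, pcomp_homog M hH, ?_, ?_⟩
    · rw [aeval_pcomp, hH' ℂ (act M p) (prm M p)]
      · exact mul_ne_zero (pow_ne_zero _ h0) h1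
      · intro i
        unfold prm
        rw [← mul_assoc, mul_inv_cancel₀ h0, one_mul]
    · have hz : ∀ i, lc (act M zz) i = act M zz 0 * x i := by
        intro i
        rw [hC.eq, lc_smul, lc_cF]
        change t * x i = t * cF x 0 * x i
        rw [cF_zero, mul_one]
      rw [aeval_pcomp, aeval_pcomp, hH' KK (act M zz) x hz, hG' KK (act M zz) x hz, ← h2]
      ring

end IsChart

end Pool.Agent.Lib.MP_b7b3c1_ag
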